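import Pool.Agent.StarF.Main

/-!
# Star forests: constructions when one forest is much larger
-/

set_option autoImplicit false

open Finset

namespace Pool.Agent.StarF2

open Pool.Agent.StarF

/-- A colouring gives a lower bound. -/
lemma ramsey_gt {α β V : Type} [Fintype V] (F₁ : SimpleGraph α) (F₂ : SimpleGraph β)
    (G : SimpleGraph V) (h1 : ¬ F₁.IsContained G) (h2 : ¬ F₂.IsContained Gᶜ)
    (hne : ∃ N : ℕ, ∀ G : SimpleGraph (Fin N), F₁.IsContained G ∨ F₂.IsContained Gᶜ) :
    Fintype.card V < ramsey F₁ F₂ := by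
  have h3 : Fintype.card V + 1 ≤ ramsey F₁ F₂ := by
    unfold ramsey
    apply le_csInf hne
    intro N hN
    by_contra hlt
    push Not at hlt
    obtain ⟨e⟩ : Nonempty (Fin N ↪ V) := by
      rw [Function.Embedding.nonempty_iff_card_le, Fintype.card_fin]
      omega
    rcases hN (G.comap e) with h | h
    · obtain ⟨φ⟩ := h
      apply h1
      refine ⟨⟨⟨fun x => e (φ x), ?_⟩, ?_⟩⟩
      · intro x y hxy
        exact φ.toHom.map_adj hxy
      · intro x y hxy
        exact φ.injective (e.injective hxy)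
    · obtain ⟨φ⟩ := h
      apply h2
      refine ⟨⟨⟨fun x => e (φ x), ?_⟩, ?_⟩⟩
      · intro x y hxy
        have h3 := φ.toHom.map_adj hxy
        rw [SimpleGraph.compl_adj] at h3 ⊢
        exact ⟨fun h4 => h3.1 (e.injective h4), h3.2⟩
      · intro x y hxy
        exact φ.injective (e.injective hxy)
  omega

/-- An upper bound. -/
lemma ramsey_le {α β : Type} (F₁ : SimpleGraph α) (F₂ : SimpleGraph β) (N : ℕ)
    (h : ∀ G : SimpleGraph (Fin N), F₁.IsContained G ∨ F₂.IsContained Gᶜ) :
    ramsey F₁ F₂ ≤ N := Nat.sInf_le h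

/-- The graph `H` with `p` additional vertices adjacent to everything. -/
def full (p : ℕ) {W : Type} (H : SimpleGraph W) : SimpleGraph (Fin p ⊕ W) where
  Adj u v := match u, v with
    | Sum.inl i, Sum.inl j => i ≠ j
    | Sum.inl _, Sum.inr _ => True
    | Sum.inr _, Sum.inl _ => True
    | Sum.inr x, Sum.inr y => H.Adj x y
  symm := ⟨by
    rintro (i | x) (j | y) h
    · exact Ne.symm h
    · trivial
    · trivial
    · exact SimpleGraph.Adj.symm h⟩
  loopless := ⟨by
    rintro (i | x) h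
    · exact h rfl
    · exact H.irrefl h⟩

lemma star_adj {k : ℕ} (n : Fin k → ℕ) (i : Fin k) (x : Fin (n i)) :
    (starForest n).Adj ⟨i, none⟩ ⟨i, some x⟩ := ⟨rfl, Or.inl ⟨rfl, by simp⟩⟩

open Classical in
/-- No red copy. -/
lemma full_no_red {W : Type} [Fintype W] (H : SimpleGraph W) (k p : ℕ) (hp : p < k) (a : ℕ → ℕ)
    (ha : ∀ s t, s ≤ t → t < k → a t ≤ a s) (hdeg : ∀ x, (univ.filter (H.Adj x)).card < a p) :
    ¬ (starForest (fun i : Fin k => a i)).IsContained (full p H) := by
  rintro ⟨φ⟩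
  have h1 : ∀ i : Fin k, (i : ℕ) ≤ p → ∃ (e : Option (Fin (a i))) (g : Fin p),
      φ ⟨i, e⟩ = Sum.inl g := by
    intro i hi
    by_contra hcon
    push Not at hcon
    have h2 : ∀ e, ∃ x, φ ⟨i, e⟩ = Sum.inr x := by
      intro e
      rcases h3 : φ ⟨i, e⟩ with g | x
      · exact absurd h3 (hcon e g)
      · exact ⟨x, rfl⟩
    choose ψ hψ using h2
    have h3 : ∀ x : Fin (a i), ψ (some x) ∈ univ.filter (H.Adj (ψ none)) := by
      intro x
      have h4 := φ.toHom.map_adj (star_adj (fun i : Fin k => a i) i x)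
      have h5 : (full p H).Adj (φ ⟨i, none⟩) (φ ⟨i, some x⟩) := h4
      rw [hψ, hψ] at h5
      exact mem_filter.2 ⟨mem_univ _, h5⟩
    have h4 : (univ.image (fun x : Fin (a i) => ψ (some x))).card = a i := by
      rw [card_image_of_injective, card_univ, Fintype.card_fin]
      intro x y hxy
      have h5 : φ ⟨i, some x⟩ = φ ⟨i, some y⟩ := by
        rw [hψ, hψ]
        exact congrArg Sum.inr hxy
      have h6 := φ.injective h5
      rw [Sigma.mk.injEq] at h6
      exact Option.some.inj (eq_of_heq h6.2)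
    have h5 : (univ.image (fun x : Fin (a i) => ψ (some x))).card ≤
        (univ.filter (H.Adj (ψ none))).card := by
      apply card_le_card
      intro w hw
      rw [mem_image] at hw
      obtain ⟨x, -, rfl⟩ := hw
      exact h3 x
    have h6 := hdeg (ψ none)
    have h7 := ha i p hi hp
    omega
  choose e g hg using h1
  let γ : Fin (p + 1) → Fin p := fun i => g ⟨i, by omega⟩ (by simp only; omega)
  have hγ : Function.Injective γ := by
    intro i j hij
    have h2 : φ ⟨⟨i, by omega⟩, e ⟨i, by omega⟩ (by simp only; omega)⟩ =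
        φ ⟨⟨j, by omega⟩, e ⟨j, by omega⟩ (by simp only; omega)⟩ := by
      rw [hg, hg]
      exact congrArg Sum.inl hij
    have h3 := φ.injective h2
    rw [Sigma.mk.injEq, Fin.mk.injEq] at h3
    exact Fin.ext h3.1
  have h2 := Fintype.card_le_of_injective γ hγ
  rw [Fintype.card_fin, Fintype.card_fin] at h2
  omega

/-- The vertices of a blue copy. -/
lemma full_blue {W : Type} (H : SimpleGraph W) (l p : ℕ) (b : ℕ → ℕ)
    (hb1 : ∀ t < l, 1 ≤ b t)
    (h : (starForest (fun i : Fin l => b i)).IsContained (full p H)ᶜ) :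
    ∃ ψ : (Σ i : Fin l, Option (Fin (b i))) → W, Function.Injective ψ ∧
      ∀ (i : Fin l) (x : Fin (b i)), ¬ H.Adj (ψ ⟨i, none⟩) (ψ ⟨i, some x⟩) := by
  obtain ⟨φ⟩ := h
  have hadj : ∀ (i : Fin l) (x : Fin (b i)), φ ⟨i, none⟩ ≠ φ ⟨i, some x⟩ ∧
      ¬ (full p H).Adj (φ ⟨i, none⟩) (φ ⟨i, some x⟩) := fun i x =>
    (SimpleGraph.compl_adj _ _ _).1 (φ.toHom.map_adj (star_adj (fun i : Fin l => b i) i x))
  have h1 : ∀ u : (Σ i : Fin l, Option (Fin (b i))), ∃ x, φ u = Sum.inr x := by
    have h2 : ∀ (i : Fin l) (x : Fin (b i)), (∃ y, φ ⟨i, none⟩ = Sum.inr y) ∧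
        ∃ z, φ ⟨i, some x⟩ = Sum.inr z := by
      intro i x
      have h3 := hadj i x
      rcases h4 : φ ⟨i, none⟩ with g | y
      · rcases h5 : φ ⟨i, some x⟩ with g' | z
        · rw [h4, h5] at h3
          exfalso
          apply h3.2
          intro h6
          exact h3.1 (congrArg Sum.inl h6)
        · rw [h4, h5] at h3
          exact absurd trivial h3.2
      · rcases h5 : φ ⟨i, some x⟩ with g' | z
        · rw [h4, h5] at h3
          exact absurd trivial h3.2
        · exact ⟨⟨y, rfl⟩, ⟨z, rfl⟩⟩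
    rintro ⟨i, u⟩
    cases u with
    | none => exact (h2 i ⟨0, hb1 i i.2⟩).1
    | some x => exact (h2 i x).2
  choose ψ hψ using h1
  refine ⟨ψ, ?_, ?_⟩
  · intro u v huv
    apply φ.injective
    change φ u = φ v
    rw [hψ, hψ, huv]
  · intro i x h2
    apply (hadj i x).2
    rw [hψ, hψ]
    exact h2

/-- No blue copy: too few vertices. -/
lemma full_no_blue_small {W : Type} [Fintype W] (H : SimpleGraph W) (l p : ℕ) (b : ℕ → ℕ)
    (hb1 : ∀ t < l, 1 ≤ b t) (hW : Fintype.card W < l + ∑ t ∈ range l, b t) :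
    ¬ (starForest (fun i : Fin l => b i)).IsContained (full p H)ᶜ := by
  intro h
  obtain ⟨ψ, hψ, -⟩ := full_blue H l p b hb1 h
  have h5 := Fintype.card_le_of_injective ψ hψ
  rw [Fintype.card_sigma] at h5
  simp only [Fintype.card_option, Fintype.card_fin, Finset.sum_add_distrib, Finset.sum_const,
    card_univ, smul_eq_mul, mul_one] at h5
  rw [Fin.sum_univ_eq_sum_range] at h5
  omega

open Classical in
/-- No blue copy. -/
lemma full_no_blue {W : Type} [Fintype W] (H : SimpleGraph W) (l p : ℕ) (hl : 1 ≤ l) (b : ℕ → ℕ)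
    (hb : ∀ s t, s ≤ t → t < l → b t ≤ b s) (hb1 : ∀ t < l, 1 ≤ b t)
    (hdeg : ∀ x, Fintype.card W + 1 ≤ b 0 + l + (univ.filter (H.Adj x)).card)
    (hloc : ∀ x y, H.Adj x y →
      (univ.filter (fun z => H.Adj x z ∧ z ≠ y ∧ ¬ H.Adj y z)).card < b (l - 1)) :
    ¬ (starForest (fun i : Fin l => b i)).IsContained (full p H)ᶜ := by
  intro h
  obtain ⟨ψ, hψ, hadj⟩ := full_blue H l p b hb1 h
  set i0 : Fin l := ⟨0, by omega⟩ with hi0
  set x := ψ ⟨i0, none⟩ with hx
  -- each other star touches the non-neighbours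
  have h1 : ∀ i : Fin l, i ≠ i0 → ∃ e : Option (Fin (b i)), ¬ H.Adj x (ψ ⟨i, e⟩) := by
    intro i hi
    by_contra hcon
    push Not at hcon
    set y := ψ ⟨i, none⟩ with hy
    have h2 := hloc x y (hcon none)
    have h3 : (univ.image (fun z : Fin (b i) => ψ ⟨i, some z⟩)).card = b i := by
      rw [card_image_of_injective, card_univ, Fintype.card_fin]
      intro z z' hzz
      have h6 := hψ hzz
      rw [Sigma.mk.injEq] at h6
      exact Option.some.inj (eq_of_heq h6.2)
    have h4 : univ.image (fun z : Fin (b i) => ψ ⟨i, some z⟩) ⊆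
        univ.filter (fun z => H.Adj x z ∧ z ≠ y ∧ ¬ H.Adj y z) := by
      intro w hw
      rw [mem_image] at hw
      obtain ⟨z, -, rfl⟩ := hw
      rw [mem_filter]
      refine ⟨mem_univ _, hcon (some z), ?_, hadj i z⟩
      intro h5
      have h6 := hψ h5
      rw [Sigma.mk.injEq] at h6
      exact absurd (eq_of_heq h6.2) (by simp)
    have h5 := card_le_card h4
    have h6 := hb i (l - 1) (by have := i.2; omega) (by omega)
    omega
  choose! e he using h1
  set S : Finset W := univ.image (fun z : Fin (b i0) => ψ ⟨i0, some z⟩) with hS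
  set T : Finset W := (univ.erase i0).image (fun i => ψ ⟨i, e i⟩) with hT
  set N : Finset W := univ.filter (H.Adj x) with hN
  have hSc : S.card = b 0 := by
    rw [hS, card_image_of_injective, card_univ, Fintype.card_fin]
    intro z z' hzz
    have h6 := hψ hzz
    rw [Sigma.mk.injEq] at h6
    exact Option.some.inj (eq_of_heq h6.2)
  have hTc : T.card = l - 1 := by
    rw [hT, card_image_of_injOn, card_erase_of_mem (mem_univ _), card_univ, Fintype.card_fin]
    intro i _ j _ hij
    have h6 := hψ hij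
    rw [Sigma.mk.injEq] at h6
    exact h6.1
  have hxN : x ∉ N := by
    rw [hN, mem_filter]
    exact fun h' => H.irrefl h'.2
  have hxS : x ∉ S := by
    rw [hS, mem_image]
    rintro ⟨z, -, hz⟩
    have h6 := hψ hz
    rw [Sigma.mk.injEq] at h6
    exact absurd (eq_of_heq h6.2) (by simp)
  have hxT : x ∉ T := by
    rw [hT, mem_image]
    rintro ⟨i, hi, hz⟩
    have h6 := hψ hz
    rw [Sigma.mk.injEq] at h6
    exact (mem_erase.1 hi).1 h6.1
  have hNS : Disjoint N S := by
    rw [Finset.disjoint_left]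
    intro w hw hw'
    rw [hS, mem_image] at hw'
    obtain ⟨z, -, rfl⟩ := hw'
    exact hadj i0 z (mem_filter.1 hw).2
  have hNT : Disjoint N T := by
    rw [Finset.disjoint_left]
    intro w hw hw'
    rw [hT, mem_image] at hw'
    obtain ⟨i, hi, rfl⟩ := hw'
    exact he i (mem_erase.1 hi).1 (mem_filter.1 hw).2
  have hST : Disjoint S T := by
    rw [Finset.disjoint_left]
    intro w hw hw'
    rw [hS, mem_image] at hw
    rw [hT, mem_image] at hw'
    obtain ⟨z, -, rfl⟩ := hw
    obtain ⟨i, hi, hz⟩ := hw'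
    have h6 := hψ hz
    rw [Sigma.mk.injEq] at h6
    exact (mem_erase.1 hi).1 h6.1
  have hcard : (insert x (N ∪ (S ∪ T))).card = N.card + (S.card + T.card) + 1 := by
    rw [card_insert_of_notMem, card_union_of_disjoint, card_union_of_disjoint hST]
    · rw [disjoint_union_right]
      exact ⟨hNS, hNT⟩
    · rw [mem_union, mem_union]
      rintro (h' | h' | h')
      · exact hxN h'
      · exact hxS h'
      · exact hxT h'
  have h2 := card_le_univ (insert x (N ∪ (S ∪ T)))
  rw [hcard, hSc, hTc] at h2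
  have h3 : Fintype.card W + 1 ≤ b 0 + l + N.card := hdeg x
  omega

/-! ### disjoint unions -/

/-- `q` copies of `H` and `q'` copies of `H'`. -/
def blocks (q q' : ℕ) {A B : Type} (H : SimpleGraph A) (H' : SimpleGraph B) :
    SimpleGraph ((Fin q × A) ⊕ (Fin q' × B)) where
  Adj u v := match u, v with
    | Sum.inl x, Sum.inl y => x.1 = y.1 ∧ H.Adj x.2 y.2
    | Sum.inl _, Sum.inr _ => False
    | Sum.inr _, Sum.inl _ => False
    | Sum.inr x, Sum.inr y => x.1 = y.1 ∧ H'.Adj x.2 y.2
  symm := ⟨by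
    rintro (x | x) (y | y) h
    · exact ⟨h.1.symm, h.2.symm⟩
    · exact h.elim
    · exact h.elim
    · exact ⟨h.1.symm, h.2.symm⟩⟩
  loopless := ⟨by
    rintro (x | x) h
    · exact H.irrefl h.2
    · exact H'.irrefl h.2⟩

open Classical in
/-- The local structure of a graph: degrees between `lo` and `hi`; a vertex of a neighbourhood
misses at most `s` vertices of it. -/
def Loc {W : Type} [Fintype W] (H : SimpleGraph W) (lo hi s : ℕ) : Prop :=
  ∀ x, lo ≤ (univ.filter (H.Adj x)).card ∧ (univ.filter (H.Adj x)).card ≤ hi ∧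
    ∀ y, H.Adj x y → (univ.filter (fun z => H.Adj x z ∧ z ≠ y ∧ ¬ H.Adj y z)).card ≤ s

open Classical in
lemma loc_transfer {A W : Type} [Fintype A] [Fintype W] (H : SimpleGraph A) (H' : SimpleGraph W)
    (lo hi s : ℕ) (e : A ↪ W) (he : ∀ x z, H'.Adj (e x) z ↔ ∃ y, z = e y ∧ H.Adj x y)
    (h : Loc H lo hi s) (x : A) :
    lo ≤ (univ.filter (H'.Adj (e x))).card ∧ (univ.filter (H'.Adj (e x))).card ≤ hi ∧
    ∀ y, H'.Adj (e x) y →
      (univ.filter (fun z => H'.Adj (e x) z ∧ z ≠ y ∧ ¬ H'.Adj y z)).card ≤ s := by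
  obtain ⟨h1, h2, h3⟩ := h x
  have e1 : univ.filter (H'.Adj (e x)) = (univ.filter (H.Adj x)).map e := by
    ext z
    simp only [mem_filter, mem_univ, true_and, mem_map, he]
    constructor
    · rintro ⟨y, rfl, hy⟩
      exact ⟨y, hy, rfl⟩
    · rintro ⟨y, hy, rfl⟩
      exact ⟨y, rfl, hy⟩
  rw [e1, card_map]
  refine ⟨h1, h2, ?_⟩
  intro y' hy'
  obtain ⟨y, rfl, hxy⟩ := (he x y').1 hy'
  have e2 : univ.filter (fun z => H'.Adj (e x) z ∧ z ≠ e y ∧ ¬ H'.Adj (e y) z) =
      (univ.filter (fun z => H.Adj x z ∧ z ≠ y ∧ ¬ H.Adj y z)).map e := by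
    ext z
    simp only [mem_filter, mem_univ, true_and, mem_map, he]
    constructor
    · rintro ⟨⟨w, rfl, hw⟩, hne, hn⟩
      exact ⟨w, ⟨hw, fun h' => hne (h' ▸ rfl), fun h' => hn ⟨w, rfl, h'⟩⟩, rfl⟩
    · rintro ⟨w, ⟨hw, hne, hn⟩, rfl⟩
      refine ⟨⟨w, rfl, hw⟩, fun h' => hne (e.injective h'), ?_⟩
      rintro ⟨w', h', hw'⟩
      rw [← e.injective h'] at hw'
      exact hn hw'
  rw [e2, card_map]
  exact h3 y hxy

lemma loc_blocks {A B : Type} [Fintype A] [Fintype B] (q q' : ℕ) (H : SimpleGraph A)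
    (H' : SimpleGraph B) (lo hi s : ℕ) (h : Loc H lo hi s) (h' : Loc H' lo hi s) :
    Loc (blocks q q' H H') lo hi s := by
  rintro (⟨i, x⟩ | ⟨i, x⟩)
  · have h1 := loc_transfer H (blocks q q' H H') lo hi s
      ⟨fun x => Sum.inl (i, x), fun x y hxy => by
        have := Sum.inl.inj hxy
        exact (Prod.mk.inj this).2⟩ (by
        rintro x (⟨j, z⟩ | ⟨j, z⟩)
        · constructor
          · rintro ⟨h1, h2⟩
            refine ⟨z, ?_, h2⟩
            change Sum.inl (j, z) = Sum.inl (i, z)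
            have h3 : i = j := h1
            rw [h3]
          · rintro ⟨y, hy, h2⟩
            have h3 := Prod.mk.inj (Sum.inl.inj hy)
            rw [h3.1, h3.2]
            exact ⟨rfl, h2⟩
        · constructor
          · rintro h1
            exact h1.elim
          · rintro ⟨y, hy, -⟩
            exact absurd hy (by simp)) h x
    exact h1
  · have h1 := loc_transfer H' (blocks q q' H H') lo hi s
      ⟨fun x => Sum.inr (i, x), fun x y hxy => by
        have := Sum.inr.inj hxy
        exact (Prod.mk.inj this).2⟩ (by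
        rintro x (⟨j, z⟩ | ⟨j, z⟩)
        · constructor
          · rintro h1
            exact h1.elim
          · rintro ⟨y, hy, -⟩
            exact absurd hy (by simp)
        · constructor
          · rintro ⟨h1, h2⟩
            refine ⟨z, ?_, h2⟩
            change Sum.inr (j, z) = Sum.inr (i, z)
            have h3 : i = j := h1
            rw [h3]
          · rintro ⟨y, hy, h2⟩
            have h3 := Prod.mk.inj (Sum.inr.inj hy)
            rw [h3.1, h3.2]
            exact ⟨rfl, h2⟩) h' x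
    exact h1

open Classical in
/-- A regular graph. -/
lemma loc_regular {W : Type} [Fintype W] (H : SimpleGraph W) (lo hi s r : ℕ)
    (hr : ∀ x, (univ.filter (H.Adj x)).card = r) (hlo : lo ≤ r) (hhi : r ≤ hi)
    (hs : Fintype.card W ≤ r + 1 + s) : Loc H lo hi s := by
  intro x
  rw [hr x]
  refine ⟨hlo, hhi, ?_⟩
  intro y _
  have h1 : insert y (univ.filter (H.Adj y)) ∪
      univ.filter (fun z => H.Adj x z ∧ z ≠ y ∧ ¬ H.Adj y z) ⊆ univ := subset_univ _
  have h2 := card_le_card h1
  rw [card_union_of_disjoint, card_insert_of_notMem, hr y, card_univ] at h2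
  · omega
  · rw [mem_filter]
    exact fun h' => H.irrefl h'.2
  · rw [Finset.disjoint_left]
    intro w hw hw'
    rw [mem_insert, mem_filter] at hw
    rw [mem_filter] at hw'
    rcases hw with rfl | hw
    · exact hw'.2.2.1 rfl
    · exact hw'.2.2.2 hw.2

lemma loc_top (c lo hi s : ℕ) (hc : 1 ≤ c) (hlo : lo + 1 ≤ c) (hhi : c ≤ hi + 1) :
    Loc (⊤ : SimpleGraph (Fin c)) lo hi s := by
  classical
  apply loc_regular _ lo hi s (c - 1) _ (by omega) (by omega) (by rw [Fintype.card_fin]; omega)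
  intro x
  suffices key : ∀ Y : Finset (Fin c), (∀ w, w ∈ Y ↔ (⊤ : SimpleGraph (Fin c)).Adj x w) →
      Y.card = c - 1 from key _ (by simp)
  intro Y hY
  have h1 : Y = univ.erase x := by
    ext y
    rw [hY]
    simp [eq_comm]
  rw [h1, card_erase_of_mem (mem_univ _), card_univ, Fintype.card_fin]

/-- The cocktail party graph. -/
def cocktail (t : ℕ) : SimpleGraph (Fin t × Fin 2) where
  Adj u v := u.1 ≠ v.1
  symm := ⟨fun _ _ h => Ne.symm h⟩
  loopless := ⟨fun _ h => h rfl⟩

lemma loc_cocktail (t lo hi s : ℕ) (ht : 1 ≤ t) (hlo : lo + 2 ≤ 2 * t) (hhi : 2 * t ≤ hi + 2)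
    (hs : 1 ≤ s) : Loc (cocktail t) lo hi s := by
  classical
  apply loc_regular _ lo hi s (2 * t - 2) _ (by omega) (by omega) (by
    rw [Fintype.card_prod, Fintype.card_fin, Fintype.card_fin]; omega)
  intro x
  have h1 : (univ.filter ((cocktail t).Adj x)) = (univ.erase x.1) ×ˢ univ := by
    ext y
    simp [cocktail, eq_comm]
  rw [h1, card_product, card_erase_of_mem (mem_univ _), card_univ, card_univ, Fintype.card_fin,
    Fintype.card_fin]
  omega

lemma loc_cycle (n lo hi s : ℕ) (hlo : lo ≤ n) (hhi : n ≤ hi) (hs : 2 ≤ s) :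
    Loc (SimpleGraph.cycleGraph (n + 3))ᶜ lo hi s := by
  classical
  apply loc_regular _ lo hi s n _ (by omega) (by omega) (by rw [Fintype.card_fin]; omega)
  intro x
  have h1 : (SimpleGraph.cycleGraph (n + 3))ᶜ.degree x = n := by
    rw [SimpleGraph.degree_compl, SimpleGraph.cycleGraph_degree_three_le, Fintype.card_fin]
    omega
  rw [← SimpleGraph.card_neighborFinset_eq_degree] at h1
  convert h1 using 2
  ext y
  simp

end Pool.Agent.StarF2
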