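import Pool.Agent.StarF.Main

/-!
# Star forests: embeddings by the theorem of Hall, vertices that are far apart
-/

set_option autoImplicit false

open Finset

namespace Pool.Agent.StarF2

open Pool.Agent.StarF

section Embed

variable {V : Type} [Fintype V]

open Classical in
/-- A red embedding: the centres `c t`, the leaves in the set `X` that avoids the centres. -/
lemma embed (G : SimpleGraph V) (l : ℕ) (b : ℕ → ℕ) (c : ℕ → V) (hc : Set.InjOn c (Set.Iio l))
    (h : ∀ J ⊆ range l, J.Nonempty → ∑ t ∈ J, b t ≤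
      (univ.filter (fun w => w ∉ (range l).image c ∧ ∃ t ∈ J, G.Adj (c t) w)).card) :
    (starForest (fun i : Fin l => b i)).IsContained G := by
  apply pack_full (c := c)
  refine ⟨hc, fun J hJ hne => ?_⟩
  have := h J hJ hne
  unfold nb
  simpa using this

open Classical in
/-- A blue embedding into the set `X`. -/
lemma embed_blue (G : SimpleGraph V) (l : ℕ) (b : ℕ → ℕ) (c : ℕ → V)
    (hc : Set.InjOn c (Set.Iio l)) (X : Finset V) (hcX : ∀ t < l, c t ∈ X)
    (h : ∀ J ⊆ range l, J.Nonempty → ∑ t ∈ J, b t +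
      (X.filter (fun w => w ∉ (range l).image c ∧ ∀ t ∈ J, G.Adj (c t) w)).card + l ≤ X.card) :
    (starForest (fun i : Fin l => b i)).IsContained Gᶜ := by
  apply embed Gᶜ l b c hc
  intro J hJ hne
  suffices key : ∀ Y : Finset V, (∀ w, w ∈ Y ↔ w ∉ (range l).image c ∧
      ∃ t ∈ J, Gᶜ.Adj (c t) w) → ∑ t ∈ J, b t ≤ Y.card from key _ (by simp)
  intro Y hY
  have h1 := h J hJ hne
  have hC : (range l).image c ⊆ X := by
    intro w hw
    rw [mem_image] at hw
    obtain ⟨t, ht, rfl⟩ := hw
    exact hcX t (mem_range.1 ht)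
  have hCc : ((range l).image c).card ≤ l := by
    have := card_image_le (s := range l) (f := c)
    rwa [card_range] at this
  have h2 : X ⊆ (range l).image c ∪ ((X.filter (fun w => w ∉ (range l).image c ∧
      ∀ t ∈ J, G.Adj (c t) w)) ∪ Y) := by
    intro w hw
    rw [mem_union, mem_union, mem_filter, hY]
    by_cases hwC : w ∈ (range l).image c
    · exact Or.inl hwC
    · right
      by_cases hall : ∀ t ∈ J, G.Adj (c t) w
      · exact Or.inl ⟨hw, hwC, hall⟩
      · right
        push Not at hall
        obtain ⟨t, ht, hadj⟩ := hall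
        refine ⟨hwC, t, ht, ?_⟩
        rw [SimpleGraph.compl_adj]
        refine ⟨?_, hadj⟩
        rintro rfl
        exact hwC (mem_image_of_mem _ (hJ ht))
  have h3 := (card_le_card h2).trans ((card_union_le _ _).trans
    (Nat.add_le_add_left (card_union_le _ _) _))
  omega

end Embed

section Far

variable {V : Type}

/-- The vertices `u`, `v` are far apart in the graph on `X`. -/
def Far (G : SimpleGraph V) (X : Finset V) (u v : V) : Prop :=
  u ≠ v ∧ ¬ G.Adj u v ∧ ∀ w ∈ X, ¬ (G.Adj u w ∧ G.Adj v w)

lemma Far.symm {G : SimpleGraph V} {X : Finset V} {u v : V} (h : Far G X u v) : Far G X v u :=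
  ⟨h.1.symm, fun h' => h.2.1 h'.symm, fun w hw h' => h.2.2 w hw ⟨h'.2, h'.1⟩⟩

open Classical in
lemma card_not_far (G : SimpleGraph V) (X : Finset V) (D : ℕ) (hD : 1 ≤ D)
    (hdeg : ∀ v ∈ X, (X.filter (G.Adj v)).card < D) (v : V) (hv : v ∈ X) :
    (X.filter (fun u => ¬ Far G X u v)).card ≤ D ^ 2 := by
  have h1 : X.filter (fun u => ¬ Far G X u v) ⊆
      insert v (X.filter (G.Adj v) ∪ (X.filter (G.Adj v)).biUnion (fun w => X.filter (G.Adj w))) := by
    intro u hu
    rw [mem_filter] at hu
    obtain ⟨huX, hu⟩ := hu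
    rw [mem_insert, mem_union, mem_biUnion]
    by_contra hcon
    push Not at hcon
    obtain ⟨h1, h2, h3⟩ := hcon
    apply hu
    refine ⟨h1, ?_, ?_⟩
    · intro h
      exact h2 (mem_filter.2 ⟨huX, h.symm⟩)
    · rintro w hw ⟨h4, h5⟩
      exact h3 w (mem_filter.2 ⟨hw, h5⟩) (mem_filter.2 ⟨huX, h4.symm⟩)
  have h2 : ((X.filter (G.Adj v)).biUnion (fun w => X.filter (G.Adj w))).card ≤
      (X.filter (G.Adj v)).card * (D - 1) := by
    apply card_biUnion_le_card_mul
    intro w hw
    have := hdeg w (mem_filter.1 hw).1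
    omega
  have h3 := hdeg v hv
  have h4 := (card_le_card h1).trans (card_insert_le _ _)
  have h5 := card_union_le (X.filter (G.Adj v))
    ((X.filter (G.Adj v)).biUnion (fun w => X.filter (G.Adj w)))
  have h6 : (X.filter (G.Adj v)).card * (D - 1) ≤ (D - 1) * (D - 1) :=
    Nat.mul_le_mul_right _ (by omega)
  obtain ⟨E, rfl⟩ : ∃ E, D = E + 1 := ⟨D - 1, by omega⟩
  simp only [Nat.add_sub_cancel] at *
  nlinarith

open Classical in
/-- Many vertices that are far apart. -/
lemma exists_far (G : SimpleGraph V) (X : Finset V) (D : ℕ) (hD : 1 ≤ D)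
    (hdeg : ∀ v ∈ X, (X.filter (G.Adj v)).card < D) (S : Finset V) (hS : S ⊆ X) (U : Finset V)
    (hU : U ⊆ X) (x0 : V) (q : ℕ) (hcard : (S.card + q) * D ^ 2 < U.card + D ^ 2) :
    ∃ x : ℕ → V, (∀ t < q, x t ∈ U) ∧ (∀ t < q, ∀ s ∈ S, Far G X (x t) s) ∧
      ∀ s < q, ∀ t < q, s ≠ t → Far G X (x s) (x t) := by
  induction q with
  | zero => exact ⟨fun _ => x0, fun t ht => absurd ht (Nat.not_lt_zero t),
      fun t ht => absurd ht (Nat.not_lt_zero t), fun t ht => absurd ht (Nat.not_lt_zero t)⟩
  | succ q ih =>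
    have hmul : (S.card + (q + 1)) * D ^ 2 = (S.card + q) * D ^ 2 + D ^ 2 := by ring
    obtain ⟨x, hxU, hxS, hx⟩ := ih (by omega)
    set T : Finset V := S ∪ (range q).image x with hT
    have hTX : T ⊆ X := by
      intro v hv
      rw [hT, mem_union, mem_image] at hv
      rcases hv with hv | ⟨t, ht, rfl⟩
      · exact hS hv
      · exact hU (hxU t (mem_range.1 ht))
    have hTc : T.card ≤ S.card + q := by
      refine (card_union_le _ _).trans (Nat.add_le_add_left ?_ _)
      exact (card_image_le).trans (card_range q).le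
    have h1 : (T.biUnion (fun v => X.filter (fun u => ¬ Far G X u v))).card ≤ T.card * D ^ 2 := by
      apply card_biUnion_le_card_mul
      intro v hv
      exact card_not_far G X D hD hdeg v (hTX hv)
    have h2 : (T.biUnion (fun v => X.filter (fun u => ¬ Far G X u v))).card < U.card := by
      have h3 : T.card * D ^ 2 ≤ (S.card + q) * D ^ 2 := Nat.mul_le_mul_right _ hTc
      omega
    obtain ⟨u, huU, hu⟩ := exists_mem_notMem_of_card_lt_card h2
    have hfar : ∀ v ∈ T, Far G X u v := by
      intro v hv
      by_contra hcon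
      exact hu (mem_biUnion.2 ⟨v, hv, mem_filter.2 ⟨hU huU, hcon⟩⟩)
    refine ⟨Function.update x q u, ?_, ?_, ?_⟩
    · intro t ht
      rcases Nat.lt_succ_iff_lt_or_eq.1 ht with ht | rfl
      · rw [Function.update_of_ne (by omega)]
        exact hxU t ht
      · rw [Function.update_self]
        exact huU
    · intro t ht s hs
      rcases Nat.lt_succ_iff_lt_or_eq.1 ht with ht | rfl
      · rw [Function.update_of_ne (by omega)]
        exact hxS t ht s hs
      · rw [Function.update_self]
        exact hfar s (mem_union_left _ hs)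
    · intro s hs t ht hst
      have hs' : s < q → Function.update x q u s = x s := fun h =>
        Function.update_of_ne (by omega) _ _
      have ht' : t < q → Function.update x q u t = x t := fun h =>
        Function.update_of_ne (by omega) _ _
      rcases Nat.lt_succ_iff_lt_or_eq.1 hs with hs | hs <;>
        rcases Nat.lt_succ_iff_lt_or_eq.1 ht with ht | ht
      · rw [hs' hs, ht' ht]
        exact hx s hs t ht hst
      · rw [hs' hs, ht, Function.update_self]
        exact (hfar (x s) (mem_union_right _ (mem_image_of_mem _ (mem_range.2 hs)))).symm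
      · rw [ht' ht, hs, Function.update_self]
        exact hfar (x t) (mem_union_right _ (mem_image_of_mem _ (mem_range.2 ht)))
      · omega

end Far

end Pool.Agent.StarF2
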