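import Mathlib

/-!
# Star forests, one much larger than the other: the arithmetic condition
-/

set_option autoImplicit false

namespace Pool.Agent.StarF2

/-- The arithmetic condition: `x` and `B` are sizes of stars, `l` is the number and `s` the
smallest size of the stars of the larger forest. -/
def Fit (x B l s : ℕ) : Prop :=
  (s = 1 → B + l ≡ 2 [MOD x]) ∧ (s = 2 → Odd x ∨ B + l ≡ 2 [MOD x]) ∧
    (3 ≤ s → Odd x ∨ Even (B + l))

end Pool.Agent.StarF2
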