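import Mathlib

/-!
# Regular graphs with almost complete neighbourhoods
-/

set_option autoImplicit false

open Finset

namespace Pool.Agent.StarF2

variable {V : Type}

open Classical in
/-- The handshake lemma on a set of vertices. -/
lemma reg_even (G : SimpleGraph V) (X : Finset V) (r : ℕ)
    (h : ∀ v ∈ X, (X.filter (G.Adj v)).card = r) : Even (X.card * r) := by
  set H : SimpleGraph X := G.comap (Subtype.val : X → V) with hH
  have h1 : ∀ v : X, H.degree v = r := by
    intro v
    rw [← h v v.2, ← SimpleGraph.card_neighborFinset_eq_degree]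
    rw [← Finset.card_map (Function.Embedding.subtype (fun x => x ∈ X))]
    congr 1
    ext w
    simp only [mem_map, SimpleGraph.mem_neighborFinset, Function.Embedding.coe_subtype,
      Subtype.exists, exists_and_right, exists_eq_right, mem_filter]
    constructor
    · rintro ⟨hw, h2⟩
      exact ⟨hw, h2⟩
    · rintro ⟨hw, h2⟩
      exact ⟨hw, h2⟩
  have h2 := H.sum_degrees_eq_twice_card_edges
  rw [Finset.sum_congr rfl fun v _ => h1 v, Finset.sum_const, card_univ, Fintype.card_coe,
    smul_eq_mul] at h2
  rw [h2]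
  exact even_two_mul _

open Classical in
/-- A regular graph whose neighbourhoods are complete is a disjoint union of complete graphs. -/
lemma clique_dvd (G : SimpleGraph V) (X : Finset V) (r : ℕ)
    (h : ∀ v ∈ X, (X.filter (G.Adj v)).card = r)
    (hcl : ∀ v ∈ X, ∀ u ∈ X, ∀ w ∈ X, G.Adj v u → G.Adj v w → u ≠ w → G.Adj u w) :
    r + 1 ∣ X.card := by
  set f : V → Finset V := fun v => insert v (X.filter (G.Adj v)) with hf
  have hfc : ∀ v ∈ X, (f v).card = r + 1 := by
    intro v hv
    rw [hf, ← h v hv]
    apply card_insert_of_notMem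
    rw [mem_filter]
    rintro ⟨-, h1⟩
    exact G.irrefl h1
  have hfX : ∀ v ∈ X, f v ⊆ X := by
    intro v hv w hw
    rw [hf, mem_insert] at hw
    rcases hw with rfl | hw
    · exact hv
    · exact (mem_filter.1 hw).1
  have hfib : ∀ v ∈ X, X.filter (fun w => f w = f v) = f v := by
    intro v hv
    ext w
    rw [mem_filter]
    constructor
    · rintro ⟨hw, hfw⟩
      rw [← hfw]
      exact mem_insert_self _ _
    · intro hw
      have hwX := hfX v hv hw
      refine ⟨hwX, ?_⟩
      symm
      apply Finset.eq_of_subset_of_card_le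
      · intro z hz
        have hzX := hfX v hv hz
        rw [hf, mem_insert]
        by_cases hzw : z = w
        · exact Or.inl hzw
        · right
          rw [mem_filter]
          refine ⟨hzX, ?_⟩
          rw [hf, mem_insert, mem_filter] at hw hz
          rcases hw with rfl | ⟨-, hw⟩
          · rcases hz with rfl | ⟨-, hz⟩
            · exact absurd rfl hzw
            · exact hz
          · rcases hz with rfl | ⟨-, hz⟩
            · exact hw.symm
            · exact hcl v hv w hwX z hzX hw hz (Ne.symm hzw)
      · rw [hfc v hv, hfc w hwX]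
  have h1 := Finset.card_eq_sum_card_image f X
  have h2 : ∀ T ∈ X.image f, (X.filter (fun w => f w = T)).card = r + 1 := by
    intro T hT
    rw [mem_image] at hT
    obtain ⟨v, hv, rfl⟩ := hT
    rw [hfib v hv, hfc v hv]
  rw [h1, Finset.sum_congr rfl h2, Finset.sum_const, smul_eq_mul]
  exact dvd_mul_left _ _

open Classical in
/-- If every vertex of a neighbourhood misses at most one vertex of it and the degree is odd, then
the neighbourhoods are complete. -/
lemma twin (G : SimpleGraph V) (X : Finset V) (r : ℕ) (hr : Odd r)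
    (h : ∀ v ∈ X, (X.filter (G.Adj v)).card = r)
    (hloc : ∀ v ∈ X, ∀ u ∈ X, G.Adj v u →
      (X.filter (fun w => G.Adj v w ∧ w ≠ u ∧ ¬ G.Adj u w)).card ≤ 1) :
    ∀ v ∈ X, ∀ u ∈ X, ∀ w ∈ X, G.Adj v u → G.Adj v w → u ≠ w → G.Adj u w := by
  intro v hv x hx y hy hvx hvy hxy
  by_contra hnadj
  set N := X.filter (G.Adj v) with hN
  have hNc : N.card = r := h v hv
  -- a vertex adjacent to all the others
  obtain ⟨u, huN, hu⟩ : ∃ u ∈ N, ∀ w ∈ N, w ≠ u → G.Adj u w := by
    by_contra hcon
    push Not at hcon
    have h1 : ∀ u ∈ N, (N.filter (Gᶜ.Adj u)).card = 1 := by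
      intro u hu
      obtain ⟨w, hw, hwu, hnw⟩ := hcon u hu
      apply le_antisymm
      · rw [hN, mem_filter] at hu
        refine le_trans (card_le_card ?_) (hloc v hv u hu.1 hu.2)
        intro z hz
        rw [mem_filter, hN, mem_filter, SimpleGraph.compl_adj] at hz
        rw [mem_filter]
        exact ⟨hz.1.1, hz.1.2, hz.2.1.symm, hz.2.2⟩
      · rw [Nat.succ_le_iff, card_pos]
        refine ⟨w, ?_⟩
        rw [mem_filter, SimpleGraph.compl_adj]
        exact ⟨hw, hwu.symm, hnw⟩
    have h2 := reg_even Gᶜ N 1 (by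
      intro u hu
      have := h1 u hu
      convert this)
    rw [mul_one, hNc] at h2
    exact (Nat.not_even_iff_odd.2 hr) h2
  have huX : u ∈ X := (mem_filter.1 huN).1
  have hvu : G.Adj v u := (mem_filter.1 huN).2
  -- the closed neighbourhoods agree
  have hcl : insert v N = insert u (X.filter (G.Adj u)) := by
    apply Finset.eq_of_subset_of_card_le
    · intro w hw
      rw [mem_insert] at hw ⊢
      by_cases hwu : w = u
      · exact Or.inl hwu
      · right
        rw [mem_filter]
        rcases hw with rfl | hw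
        · exact ⟨hv, hvu.symm⟩
        · exact ⟨(mem_filter.1 hw).1, hu w hw hwu⟩
    · rw [card_insert_of_notMem (by
          rw [mem_filter]
          exact fun h' => G.irrefl h'.2), card_insert_of_notMem (by
          rw [hN, mem_filter]
          exact fun h' => G.irrefl h'.2), h u huX, hNc]
  have hxN : x ∈ N := mem_filter.2 ⟨hx, hvx⟩
  have hyN : y ∈ N := mem_filter.2 ⟨hy, hvy⟩
  have hux : u ≠ x := by
    rintro rfl
    exact hnadj (hu y hyN (Ne.symm hxy))
  have huxadj : G.Adj u x := hu x hxN (Ne.symm hux)
  -- a neighbour of `x` outside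
  obtain ⟨z, hzX, hxz, hzv⟩ : ∃ z ∈ X, G.Adj x z ∧ z ∉ insert v N := by
    by_contra hcon
    push Not at hcon
    have h1 : X.filter (G.Adj x) ⊆ ((insert v N).erase x).erase y := by
      intro w hw
      rw [mem_filter] at hw
      rw [mem_erase, mem_erase]
      refine ⟨?_, ?_, hcon w hw.1 hw.2⟩
      · rintro rfl
        exact hnadj hw.2
      · rintro rfl
        exact G.irrefl hw.2
    have h2 := card_le_card h1
    rw [card_erase_of_mem, card_erase_of_mem, card_insert_of_notMem, h x hx, hNc] at h2
    · obtain ⟨m, hm⟩ := hr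
      omega
    · rw [hN, mem_filter]
      exact fun h' => G.irrefl h'.2
    · exact mem_insert_of_mem hxN
    · rw [mem_erase]
      exact ⟨Ne.symm hxy, mem_insert_of_mem hyN⟩
  have hnvz : ¬ G.Adj z v := by
    intro h'
    exact hzv (mem_insert_of_mem (mem_filter.2 ⟨hzX, h'.symm⟩))
  have hnuz : ¬ G.Adj z u := by
    intro h'
    apply hzv
    rw [hcl]
    exact mem_insert_of_mem (mem_filter.2 ⟨hzX, h'.symm⟩)
  have hvz : v ≠ z := by
    rintro rfl
    exact hzv (mem_insert_self _ _)
  have huz : u ≠ z := by
    rintro rfl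
    apply hzv
    rw [hcl]
    exact mem_insert_self _ _
  have h1 := hloc x hx z hzX hxz
  have h2 : ({u, v} : Finset V) ⊆ X.filter (fun w => G.Adj x w ∧ w ≠ z ∧ ¬ G.Adj z w) := by
    intro w hw
    rw [mem_insert, mem_singleton] at hw
    rw [mem_filter]
    rcases hw with rfl | rfl
    · exact ⟨huX, huxadj.symm, huz, hnuz⟩
    · exact ⟨hv, hvx.symm, hvz, hnvz⟩
  have h3 := card_le_card h2
  rw [card_pair hvu.ne'] at h3
  omega

end Pool.Agent.StarF2
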