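import Pool.Agent.StarF2.Basic

/-!
# Star forests: upper bounds when one forest is much larger
-/

set_option autoImplicit false

open Finset

namespace Pool.Agent.StarF2

open Pool.Agent.StarF

variable {V : Type} [Fintype V]

omit [Fintype V] in
lemma enum (T : Finset V) (x0 : V) : ∃ e : ℕ → V, Set.InjOn e (Set.Iio T.card) ∧
    ∀ t < T.card, e t ∈ T := by
  refine ⟨fun t => if h : t < T.card then (T.equivFin.symm ⟨t, h⟩ : V) else x0, ?_, ?_⟩
  · intro s hs t ht hst
    rw [Set.mem_Iio] at hs ht
    simp only [dif_pos hs, dif_pos ht] at hst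
    have h1 := T.equivFin.symm.injective (Subtype.ext hst)
    exact congrArg (fun z : Fin T.card => (z : ℕ)) h1
  · intro t ht
    simp only [dif_pos ht]
    exact Subtype.property _

open Classical in
/-- A red copy with some centres of high degree, the others far apart. -/
lemma emb_high (G : SimpleGraph V) (k p : ℕ) (a : ℕ → ℕ) (X : Finset V) (c : ℕ → V)
    (hc : Set.InjOn c (Set.Iio k))
    (hhigh : ∀ t < k, t < p → k + ∑ s ∈ range k, a s ≤ (univ.filter (G.Adj (c t))).card)
    (hhX : ∀ t < p, c t ∉ X)
    (hfar : ∀ s < k, ∀ t < k, p ≤ s → p ≤ t → s ≠ t → Far G X (c s) (c t))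
    (hdeg : ∀ t < k, p ≤ t → a t ≤ (X.filter (G.Adj (c t))).card) :
    (starForest (fun i : Fin k => a i)).IsContained G := by
  apply embed G k a c hc
  intro J hJ hne
  suffices key : ∀ Y : Finset V, (∀ w, w ∈ Y ↔ w ∉ (range k).image c ∧
      ∃ t ∈ J, G.Adj (c t) w) → ∑ t ∈ J, a t ≤ Y.card from key _ (by simp)
  intro Y hY
  by_cases hex : ∃ t ∈ J, t < p
  · obtain ⟨t, htJ, htp⟩ := hex
    have h1 := hhigh t (mem_range.1 (hJ htJ)) htp
    have h2 : univ.filter (G.Adj (c t)) ⊆ (range k).image c ∪ Y := by
      intro w hw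
      rw [mem_filter] at hw
      rw [mem_union, hY]
      by_cases hwC : w ∈ (range k).image c
      · exact Or.inl hwC
      · exact Or.inr ⟨hwC, t, htJ, hw.2⟩
    have h3 := (card_le_card h2).trans (card_union_le _ _)
    have h4 : ((range k).image c).card ≤ k := (card_image_le).trans (card_range k).le
    have h5 : ∑ t ∈ J, a t ≤ ∑ s ∈ range k, a s := Finset.sum_le_sum_of_subset hJ
    omega
  · push Not at hex
    have h1 : J.biUnion (fun t => X.filter (G.Adj (c t))) ⊆ Y := by
      intro w hw
      rw [mem_biUnion] at hw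
      obtain ⟨t, htJ, hw⟩ := hw
      rw [mem_filter] at hw
      rw [hY]
      refine ⟨?_, t, htJ, hw.2⟩
      intro hwC
      rw [mem_image] at hwC
      obtain ⟨s, hs, rfl⟩ := hwC
      by_cases hsp : s < p
      · exact hhX s hsp hw.1
      · by_cases hst : s = t
        · subst hst
          exact G.irrefl hw.2
        · exact (hfar s (mem_range.1 hs) t (mem_range.1 (hJ htJ)) (not_lt.1 hsp) (hex t htJ)
            hst).2.1 hw.2.symm
    have h2 : (J.biUnion (fun t => X.filter (G.Adj (c t)))).card =
        ∑ t ∈ J, (X.filter (G.Adj (c t))).card := by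
      apply card_biUnion
      intro s hs t ht hst
      change Disjoint _ _
      rw [Finset.disjoint_left]
      intro w hw hw'
      rw [mem_filter] at hw hw'
      exact (hfar s (mem_range.1 (hJ hs)) t (mem_range.1 (hJ ht)) (hex s hs) (hex t ht)
        hst).2.2 w hw.1 ⟨hw.2, hw'.2⟩
    have h3 : ∑ t ∈ J, a t ≤ ∑ t ∈ J, (X.filter (G.Adj (c t))).card := by
      apply Finset.sum_le_sum
      intro t ht
      exact hdeg t (mem_range.1 (hJ ht)) (hex t ht)
    exact (h3.trans h2.ge).trans (card_le_card h1)

open Classical in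
/-- The structure of a graph without a red copy. -/
lemma no_red [Nonempty V] (G : SimpleGraph V) (k : ℕ) (a : ℕ → ℕ) (D : ℕ)
    (hD : D = k + ∑ s ∈ range k, a s) (h : ¬ (starForest (fun i : Fin k => a i)).IsContained G)
    (ha : ∀ s t, s ≤ t → t < k → a t ≤ a s) :
    ∃ (X : Finset V) (p : ℕ), p < k ∧ X.card + p = Fintype.card V ∧
      (∀ v ∈ X, (X.filter (G.Adj v)).card < D) ∧
      (k * D ^ 2 ≤ X.card → ∀ u0 ∈ X, a p ≤ (X.filter (G.Adj u0)).card →
        (∀ u ∈ X, p + 1 < k → a (p + 1) ≤ (X.filter (G.Adj u)).card) → False) := by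
  obtain ⟨x0⟩ := ‹Nonempty V›
  set Hi : Finset V := univ.filter (fun v => D ≤ (univ.filter (G.Adj v)).card) with hHi
  obtain ⟨e, he, heH⟩ := enum Hi x0
  have hHid : ∀ v ∈ Hi, D ≤ (univ.filter (G.Adj v)).card := fun v hv => (mem_filter.1 hv).2
  have hp : Hi.card < k := by
    by_contra hcon
    push Not at hcon
    apply h
    apply emb_high G k k a ∅ e
    · intro s hs t ht hst
      rw [Set.mem_Iio] at hs ht
      exact he (Set.mem_Iio.2 (by omega)) (Set.mem_Iio.2 (by omega)) hst
    · intro t ht _
      rw [← hD]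
      exact hHid _ (heH t (by omega))
    · intro t _
      simp
    · intro s hs t ht h1 h2
      omega
    · intro t ht h1
      omega
  refine ⟨univ \ Hi, Hi.card, hp, ?_, ?_, ?_⟩
  · have h1 := Finset.card_sdiff_add_card (univ : Finset V) Hi
    rw [union_eq_left.2 (subset_univ Hi), card_univ] at h1
    exact h1
  · intro v hv
    rw [mem_sdiff] at hv
    have h1 : ¬ D ≤ (univ.filter (G.Adj v)).card := fun h' =>
      hv.2 (mem_filter.2 ⟨mem_univ _, h'⟩)
    have h2 : ((univ \ Hi).filter (G.Adj v)).card ≤ (univ.filter (G.Adj v)).card :=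
      card_le_card (filter_subset_filter _ (subset_univ _))
    omega
  · intro hbig u0 hu0 hdeg0 hdeg
    set X := univ \ Hi with hX
    have hXd : ∀ v ∈ X, (X.filter (G.Adj v)).card < D := by
      intro v hv
      rw [hX, mem_sdiff] at hv
      have h1 : ¬ D ≤ (univ.filter (G.Adj v)).card := fun h' =>
        hv.2 (mem_filter.2 ⟨mem_univ _, h'⟩)
      have h2 : (X.filter (G.Adj v)).card ≤ (univ.filter (G.Adj v)).card :=
        card_le_card (filter_subset_filter _ (subset_univ _))
      omega
    have hD1 : 1 ≤ D := by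
      have := hXd u0 hu0
      omega
    set p := Hi.card with hpdef
    obtain ⟨x, hxU, hxS, hx⟩ := exists_far G X D hD1 hXd {u0} (by simpa using hu0) X
      (Finset.Subset.refl _) x0 (k - p - 1) (by
        rw [card_singleton]
        have h1 : (1 + (k - p - 1)) * D ^ 2 ≤ k * D ^ 2 := Nat.mul_le_mul_right _ (by omega)
        have h2 : 1 ≤ D ^ 2 := Nat.one_le_pow _ _ hD1
        omega)
    set c : ℕ → V := fun t => if t < p then e t else if t = p then u0 else x (t - p - 1) with hc
    have hc1 : ∀ t, t < p → c t = e t := fun t ht => by simp only [hc, if_pos ht]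
    have hc2 : c p = u0 := by simp [hc]
    have hc3 : ∀ t, p < t → c t = x (t - p - 1) := fun t ht => by
      simp only [hc]
      rw [if_neg (by omega), if_neg (by omega)]
    have hnotX : ∀ t < p, c t ∉ X := by
      intro t ht hmem
      rw [hc1 t ht, hX, mem_sdiff] at hmem
      exact hmem.2 (heH t ht)
    have hfar : ∀ s < k, ∀ t < k, p ≤ s → p ≤ t → s ≠ t → Far G X (c s) (c t) := by
      intro s hs t ht hps hpt hst
      rcases Nat.lt_or_eq_of_le hps with hps | hps <;> rcases Nat.lt_or_eq_of_le hpt with hpt | hpt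
      · rw [hc3 s hps, hc3 t hpt]
        exact hx _ (by omega) _ (by omega) (by omega)
      · rw [hc3 s hps, ← hpt, hc2]
        exact hxS _ (by omega) _ (mem_singleton_self _)
      · rw [hc3 t hpt, ← hps, hc2]
        exact (hxS _ (by omega) _ (mem_singleton_self _)).symm
      · omega
    have hcX : ∀ t < k, p ≤ t → c t ∈ X := by
      intro t ht hpt
      rcases Nat.lt_or_eq_of_le hpt with hpt | hpt
      · rw [hc3 t hpt]
        exact hxU _ (by omega)
      · rw [← hpt, hc2]
        exact hu0
    apply h
    apply emb_high G k p a X c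
    · intro s hs t ht hst
      rw [Set.mem_Iio] at hs ht
      by_cases h1 : s < p <;> by_cases h2 : t < p
      · rw [hc1 s h1, hc1 t h2] at hst
        exact he (Set.mem_Iio.2 h1) (Set.mem_Iio.2 h2) hst
      · exact absurd (hst ▸ hcX t ht (not_lt.1 h2)) (hnotX s h1)
      · exact absurd (hst ▸ hcX s hs (not_lt.1 h1)) (hnotX t h2)
      · by_contra hne
        exact (hfar s hs t ht (not_lt.1 h1) (not_lt.1 h2) hne).1 hst
    · intro t _ htp
      rw [← hD, hc1 t htp]
      exact hHid _ (heH t htp)
    · exact hnotX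
    · exact hfar
    · intro t ht hpt
      rcases Nat.lt_or_eq_of_le hpt with hpt | hpt
      · have h1 := hdeg (c t) (hcX t ht hpt.le) (by omega)
        exact (ha (p + 1) t (by omega) ht).trans h1
      · rw [← hpt, hc2]
        exact hdeg0

open Classical in
/-- A blue copy dominated by its first star. -/
lemma blue_dom (G : SimpleGraph V) (l : ℕ) (hl : 1 ≤ l) (b : ℕ → ℕ) (X : Finset V) (D beta : ℕ)
    (hbeta : b 0 + beta = ∑ t ∈ range l, b t)
    (hXd : ∀ v ∈ X, (X.filter (G.Adj v)).card < D) (v : V) (hv : v ∈ X)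
    (h1 : b 0 + beta + l ≤ X.card) (h2 : b 0 + l + (X.filter (G.Adj v)).card ≤ X.card)
    (h3 : D + beta + l ≤ X.card) (h4 : l * D ^ 2 ≤ X.card) :
    (starForest (fun i : Fin l => b i)).IsContained Gᶜ := by
  have hD1 : 1 ≤ D := by
    have := hXd v hv
    omega
  obtain ⟨x, hxU, hxS, hx⟩ := exists_far G X D hD1 hXd {v} (by simpa using hv) X
    (Finset.Subset.refl _) v (l - 1) (by
      rw [card_singleton]
      have e1 : (1 + (l - 1)) * D ^ 2 ≤ l * D ^ 2 := Nat.mul_le_mul_right _ (by omega)
      have e2 : 1 ≤ D ^ 2 := Nat.one_le_pow _ _ hD1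
      omega)
  set c : ℕ → V := fun t => if t = 0 then v else x (t - 1) with hc
  have hc0 : c 0 = v := by simp [hc]
  have hc1 : ∀ t, 0 < t → c t = x (t - 1) := fun t ht => by
    simp only [hc]
    rw [if_neg (by omega)]
  have hfar : ∀ s < l, ∀ t < l, s ≠ t → Far G X (c s) (c t) := by
    intro s hs t ht hst
    rcases Nat.eq_zero_or_pos s with hs0 | hs0 <;> rcases Nat.eq_zero_or_pos t with ht0 | ht0
    · omega
    · rw [hs0, hc0, hc1 t ht0]
      exact (hxS _ (by omega) _ (mem_singleton_self _)).symm
    · rw [ht0, hc0, hc1 s hs0]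
      exact hxS _ (by omega) _ (mem_singleton_self _)
    · rw [hc1 s hs0, hc1 t ht0]
      exact hx _ (by omega) _ (by omega) (by omega)
  have hcX : ∀ t < l, c t ∈ X := by
    intro t ht
    rcases Nat.eq_zero_or_pos t with ht0 | ht0
    · rw [ht0, hc0]
      exact hv
    · rw [hc1 t ht0]
      exact hxU _ (by omega)
  apply embed_blue G l b c ?_ X hcX
  · intro J hJ hne
    by_cases h0 : 0 ∈ J
    · by_cases hex : ∃ t ∈ J, t ≠ 0
      · obtain ⟨t, htJ, ht0⟩ := hex
        have e1 : X.filter (fun w => w ∉ (range l).image c ∧ ∀ t ∈ J, G.Adj (c t) w) = ∅ := by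
          rw [Finset.filter_eq_empty_iff]
          rintro w hw ⟨-, hall⟩
          exact (hfar 0 (mem_range.1 (hJ h0)) t (mem_range.1 (hJ htJ)) ht0.symm).2.2 w hw
            ⟨hall 0 h0, hall t htJ⟩
        rw [e1, card_empty]
        have e2 : ∑ t ∈ J, b t ≤ ∑ s ∈ range l, b s := Finset.sum_le_sum_of_subset hJ
        omega
      · push Not at hex
        have e1 : J = {0} := by
          ext t
          rw [mem_singleton]
          exact ⟨fun ht => hex t ht, fun ht => ht ▸ h0⟩
        have e2 : (X.filter (fun w => w ∉ (range l).image c ∧ ∀ t ∈ J, G.Adj (c t) w)).card ≤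
            (X.filter (G.Adj v)).card := by
          apply card_le_card
          intro w hw
          rw [mem_filter] at hw ⊢
          have := hw.2.2 0 h0
          rw [hc0] at this
          exact ⟨hw.1, this⟩
        have e3 : ∑ t ∈ J, b t = b 0 := by rw [e1, sum_singleton]
        omega
    · obtain ⟨t, htJ⟩ := hne
      have e1 : ∑ t ∈ J, b t + b 0 ≤ ∑ s ∈ range l, b s := by
        rw [add_comm, ← Finset.sum_insert h0]
        apply Finset.sum_le_sum_of_subset
        intro s hs
        rw [mem_insert] at hs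
        rcases hs with rfl | hs
        · exact mem_range.2 (by omega)
        · exact hJ hs
      have e2 : (X.filter (fun w => w ∉ (range l).image c ∧ ∀ t ∈ J, G.Adj (c t) w)).card ≤
          (X.filter (G.Adj (c t))).card := by
        apply card_le_card
        intro w hw
        rw [mem_filter] at hw ⊢
        exact ⟨hw.1, hw.2.2 t htJ⟩
      have e3 := hXd (c t) (hcX t (mem_range.1 (hJ htJ)))
      omega
  · intro s hs t ht hst
    by_contra hne
    exact (hfar s hs t ht hne).1 hst

open Classical in
/-- A blue copy when the neighbourhood of `v` is not almost complete. -/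
lemma blue_local (G : SimpleGraph V) (l : ℕ) (hl : 2 ≤ l) (b : ℕ → ℕ) (X : Finset V)
    (D beta r : ℕ) (hbeta : b 0 + beta = ∑ t ∈ range l, b t)
    (hXd : ∀ v ∈ X, (X.filter (G.Adj v)).card < D) (v u : V) (hv : v ∈ X) (hu : u ∈ X)
    (hvu : G.Adj v u) (hr : (X.filter (G.Adj v)).card = r)
    (hloc : b (l - 1) ≤ (X.filter (fun w => G.Adj v w ∧ w ≠ u ∧ ¬ G.Adj u w)).card)
    (h1 : b 0 + beta + l ≤ X.card) (h2 : b 0 + l + r = X.card + 1)
    (h3 : D + beta + l ≤ X.card) (h4 : l * D ^ 2 ≤ X.card) :
    (starForest (fun i : Fin l => b i)).IsContained Gᶜ := by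
  have hD1 : 1 ≤ D := by
    have := hXd v hv
    omega
  have hSc : ({v, u} : Finset V).card = 2 := card_pair hvu.ne
  obtain ⟨x, hxU, hxS, hx⟩ := exists_far G X D hD1 hXd {v, u} (by
      intro w hw
      rw [mem_insert, mem_singleton] at hw
      rcases hw with rfl | rfl
      · exact hv
      · exact hu) X
    (Finset.Subset.refl _) v (l - 2) (by
      rw [hSc]
      have e1 : (2 + (l - 2)) * D ^ 2 ≤ l * D ^ 2 := Nat.mul_le_mul_right _ (by omega)
      have e2 : 1 ≤ D ^ 2 := Nat.one_le_pow _ _ hD1
      omega)
  set c : ℕ → V := fun t => if t = 0 then v else if t = l - 1 then u else x (t - 1) with hc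
  have hc0 : c 0 = v := by simp [hc]
  have hcl : c (l - 1) = u := by
    simp only [hc]
    rw [if_neg (by omega), if_pos trivial]
  have hc1 : ∀ t, 0 < t → t < l - 1 → c t = x (t - 1) := fun t ht ht' => by
    simp only [hc]
    rw [if_neg (by omega), if_neg (by omega)]
  -- far from the middle centres
  have hfarm : ∀ s < l, ∀ t, 0 < t → t < l - 1 → s ≠ t → Far G X (c s) (c t) := by
    intro s hs t ht0 ht hst
    rw [hc1 t ht0 ht]
    rcases Nat.eq_zero_or_pos s with hs0 | hs0
    · rw [hs0, hc0]
      exact (hxS _ (by omega) _ (by simp)).symm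
    · by_cases hsl : s = l - 1
      · rw [hsl, hcl]
        exact (hxS _ (by omega) _ (by simp)).symm
      · rw [hc1 s hs0 (by omega)]
        exact hx _ (by omega) _ (by omega) (by omega)
  have hcX : ∀ t < l, c t ∈ X := by
    intro t ht
    rcases Nat.eq_zero_or_pos t with ht0 | ht0
    · rw [ht0, hc0]
      exact hv
    · by_cases htl : t = l - 1
      · rw [htl, hcl]
        exact hu
      · rw [hc1 t ht0 (by omega)]
        exact hxU _ (by omega)
  have huC : u ∈ (range l).image c := by
    rw [mem_image]
    exact ⟨l - 1, mem_range.2 (by omega), hcl⟩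
  -- the neighbours of `v` outside `u`
  have hNv : (X.filter (fun w => G.Adj v w ∧ w ≠ u)).card + 1 = r := by
    have e1 : X.filter (G.Adj v) = insert u (X.filter (fun w => G.Adj v w ∧ w ≠ u)) := by
      ext w
      rw [mem_insert, mem_filter, mem_filter]
      constructor
      · rintro ⟨hw1, hw2⟩
        by_cases hwu : w = u
        · exact Or.inl hwu
        · exact Or.inr ⟨hw1, hw2, hwu⟩
      · rintro (rfl | ⟨hw1, hw2, -⟩)
        · exact ⟨hu, hvu⟩
        · exact ⟨hw1, hw2⟩
    rw [← hr, e1, card_insert_of_notMem]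
    rw [mem_filter]
    rintro ⟨-, -, h⟩
    exact h rfl
  have hNvu : (X.filter (fun w => G.Adj v w ∧ w ≠ u ∧ ¬ G.Adj u w)).card +
      (X.filter (fun w => G.Adj v w ∧ w ≠ u ∧ G.Adj u w)).card + 1 = r := by
    rw [← hNv, ← card_union_of_disjoint]
    · congr 2
      ext w
      simp only [mem_union, mem_filter]
      tauto
    · rw [Finset.disjoint_left]
      intro w hw hw'
      rw [mem_filter] at hw hw'
      exact hw.2.2.2 hw'.2.2.2
  apply embed_blue G l b c ?_ X hcX
  · intro J hJ hne
    by_cases h0 : 0 ∈ J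
    · by_cases hex : ∃ t ∈ J, 0 < t ∧ t < l - 1
      · obtain ⟨t, htJ, ht0, htl⟩ := hex
        have e1 : X.filter (fun w => w ∉ (range l).image c ∧ ∀ t ∈ J, G.Adj (c t) w) = ∅ := by
          rw [Finset.filter_eq_empty_iff]
          rintro w hw ⟨-, hall⟩
          exact (hfarm 0 (by omega) t ht0 htl (by omega)).2.2 w hw ⟨hall 0 h0, hall t htJ⟩
        rw [e1, card_empty]
        have e2 : ∑ t ∈ J, b t ≤ ∑ s ∈ range l, b s := Finset.sum_le_sum_of_subset hJ
        omega
      · push Not at hex
        by_cases hl1 : l - 1 ∈ J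
        · have e1 : J = {0, l - 1} := by
            ext t
            rw [mem_insert, mem_singleton]
            constructor
            · intro ht
              by_contra hcon
              push Not at hcon
              have h5 := hex t ht (by omega)
              have h6 := mem_range.1 (hJ ht)
              omega
            · rintro (rfl | rfl)
              · exact h0
              · exact hl1
          have e2 : (X.filter (fun w => w ∉ (range l).image c ∧ ∀ t ∈ J, G.Adj (c t) w)).card ≤
              (X.filter (fun w => G.Adj v w ∧ w ≠ u ∧ G.Adj u w)).card := by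
            apply card_le_card
            intro w hw
            rw [mem_filter] at hw ⊢
            have e3 := hw.2.2 0 h0
            have e4 := hw.2.2 (l - 1) hl1
            rw [hc0] at e3
            rw [hcl] at e4
            refine ⟨hw.1, e3, ?_, e4⟩
            rintro rfl
            exact hw.2.1 huC
          have e3 : ∑ t ∈ J, b t = b 0 + b (l - 1) := by
            rw [e1, Finset.sum_pair (by omega)]
          omega
        · have e1 : J = {0} := by
            ext t
            rw [mem_singleton]
            constructor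
            · intro ht
              by_contra hcon
              have h5 := hex t ht (by omega)
              have h6 := mem_range.1 (hJ ht)
              have h7 : t = l - 1 := by omega
              exact hl1 (h7 ▸ ht)
            · rintro rfl
              exact h0
          have e2 : (X.filter (fun w => w ∉ (range l).image c ∧ ∀ t ∈ J, G.Adj (c t) w)).card ≤
              (X.filter (fun w => G.Adj v w ∧ w ≠ u)).card := by
            apply card_le_card
            intro w hw
            rw [mem_filter] at hw ⊢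
            have e3 := hw.2.2 0 h0
            rw [hc0] at e3
            refine ⟨hw.1, e3, ?_⟩
            rintro rfl
            exact hw.2.1 huC
          have e3 : ∑ t ∈ J, b t = b 0 := by rw [e1, sum_singleton]
          omega
    · obtain ⟨t, htJ⟩ := hne
      have e1 : ∑ t ∈ J, b t + b 0 ≤ ∑ s ∈ range l, b s := by
        rw [add_comm, ← Finset.sum_insert h0]
        apply Finset.sum_le_sum_of_subset
        intro s hs
        rw [mem_insert] at hs
        rcases hs with rfl | hs
        · exact mem_range.2 (by omega)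
        · exact hJ hs
      have e2 : (X.filter (fun w => w ∉ (range l).image c ∧ ∀ t ∈ J, G.Adj (c t) w)).card ≤
          (X.filter (G.Adj (c t))).card := by
        apply card_le_card
        intro w hw
        rw [mem_filter] at hw ⊢
        exact ⟨hw.1, hw.2.2 t htJ⟩
      have e3 := hXd (c t) (hcX t (mem_range.1 (hJ htJ)))
      omega
  · intro s hs t ht hst
    rw [Set.mem_Iio] at hs ht
    by_contra hne
    by_cases ht1 : 0 < t ∧ t < l - 1
    · exact (hfarm s hs t ht1.1 ht1.2 hne).1 hst
    · by_cases hs1 : 0 < s ∧ s < l - 1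
      · exact (hfarm t ht s hs1.1 hs1.2 (Ne.symm hne)).1 hst.symm
      · rcases (by omega : (s = 0 ∧ t = l - 1) ∨ (s = l - 1 ∧ t = 0)) with ⟨h5, h6⟩ | ⟨h5, h6⟩
        · rw [h5, h6, hc0, hcl] at hst
          exact hvu.ne hst
        · rw [h5, h6, hc0, hcl] at hst
          exact hvu.ne hst.symm

open Classical in
/-- A blue copy without a dominating star. -/
lemma blue_many (G : SimpleGraph V) (l : ℕ) (b : ℕ → ℕ) (X : Finset V) (x0 : V) (D : ℕ)
    (hD1 : 1 ≤ D) (hb1 : ∀ t < l, 1 ≤ b t)
    (hXd : ∀ v ∈ X, (X.filter (G.Adj v)).card < D)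
    (h1 : ∑ t ∈ range l, b t + l ≤ X.card)
    (h : 2 * D ≤ l ∨ (l * D ^ 2 ≤ X.card ∧ ∀ t < l, b t + D ≤ ∑ t ∈ range l, b t + 1)) :
    (starForest (fun i : Fin l => b i)).IsContained Gᶜ := by
  have hsub : ∀ (c : ℕ → V) (J : Finset ℕ) (t : ℕ), t ∈ J →
      (X.filter (fun w => w ∉ (range l).image c ∧ ∀ t ∈ J, G.Adj (c t) w)).card ≤
          (X.filter (G.Adj (c t))).card := by
    intro c J t htJ
    apply card_le_card
    intro w hw
    rw [mem_filter] at hw ⊢
    exact ⟨hw.1, hw.2.2 t htJ⟩
  rcases h with h | ⟨h, hbD⟩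
  · obtain ⟨c, hc, hcX⟩ := enum X x0
    have hcX' : ∀ t < l, c t ∈ X := fun t ht => hcX t (by omega)
    have hcinj : Set.InjOn c (Set.Iio l) := by
      intro s hs t ht hst
      rw [Set.mem_Iio] at hs ht
      exact hc (Set.mem_Iio.2 (by omega)) (Set.mem_Iio.2 (by omega)) hst
    apply embed_blue G l b c hcinj X hcX'
    intro J hJ hne
    by_cases hJD : D ≤ J.card
    · have e1 : X.filter (fun w => w ∉ (range l).image c ∧ ∀ t ∈ J, G.Adj (c t) w) = ∅ := by
        rw [Finset.filter_eq_empty_iff]
        rintro w hw ⟨-, hall⟩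
        have e2 : (J.image c).card = J.card := by
          apply card_image_of_injOn
          intro s hs t ht hst
          exact hcinj (Set.mem_Iio.2 (mem_range.1 (hJ hs))) (Set.mem_Iio.2 (mem_range.1 (hJ ht))) hst
        have e3 : J.image c ⊆ X.filter (G.Adj w) := by
          intro z hz
          rw [mem_image] at hz
          obtain ⟨t, ht, rfl⟩ := hz
          rw [mem_filter]
          exact ⟨hcX' t (mem_range.1 (hJ ht)), (hall t ht).symm⟩
        have e4 := card_le_card e3
        have e5 := hXd w hw
        omega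
      rw [e1, card_empty]
      have e2 : ∑ t ∈ J, b t ≤ ∑ s ∈ range l, b s := Finset.sum_le_sum_of_subset hJ
      omega
    · push Not at hJD
      obtain ⟨t, htJ⟩ := hne
      have e1 := hsub c J t htJ
      have e2 := hXd (c t) (hcX' t (mem_range.1 (hJ htJ)))
      have e3 : ∑ t ∈ J, b t + (range l \ J).card ≤ ∑ s ∈ range l, b s := by
        rw [← Finset.sum_sdiff hJ, add_comm]
        apply Nat.add_le_add_right
        rw [card_eq_sum_ones]
        apply Finset.sum_le_sum
        intro s hs
        rw [mem_sdiff, mem_range] at hs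
        exact hb1 s hs.1
      have e4 : (range l \ J).card + J.card = l := by
        rw [Finset.card_sdiff_add_card, union_eq_left.2 hJ, card_range]
      omega
  · obtain ⟨x, hxU, -, hx⟩ := exists_far G X D hD1 hXd ∅ (by simp) X
      (Finset.Subset.refl _) x0 l (by
        rw [card_empty, zero_add]
        have e2 : 1 ≤ D ^ 2 := Nat.one_le_pow _ _ hD1
        omega)
    have hcinj : Set.InjOn x (Set.Iio l) := by
      intro s hs t ht hst
      by_contra hne
      exact (hx s hs t ht hne).1 hst
    apply embed_blue G l b x hcinj X hxU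
    intro J hJ hne
    obtain ⟨t, htJ⟩ := hne
    by_cases hex : ∃ s ∈ J, s ≠ t
    · obtain ⟨s, hsJ, hst⟩ := hex
      have e1 : X.filter (fun w => w ∉ (range l).image x ∧ ∀ t ∈ J, G.Adj (x t) w) = ∅ := by
        rw [Finset.filter_eq_empty_iff]
        rintro w hw ⟨-, hall⟩
        exact (hx s (mem_range.1 (hJ hsJ)) t (mem_range.1 (hJ htJ)) hst).2.2 w hw
          ⟨hall s hsJ, hall t htJ⟩
      rw [e1, card_empty]
      have e2 : ∑ t ∈ J, b t ≤ ∑ s ∈ range l, b s := Finset.sum_le_sum_of_subset hJ
      omega
    · push Not at hex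
      have e1 : J = {t} := by
        ext s
        rw [mem_singleton]
        exact ⟨fun hs => hex s hs, fun hs => hs ▸ htJ⟩
      have e2 := hsub x J t htJ
      have e3 := hXd (x t) (hxU t (mem_range.1 (hJ htJ)))
      have e4 := hbD t (mem_range.1 (hJ htJ))
      have e5 : ∑ t ∈ J, b t = b t := by rw [e1, sum_singleton]
      omega

end Pool.Agent.StarF2
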