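import Pool.Agent.StarF2.Defs
import Pool.Agent.StarF2.Upper
import Pool.Agent.StarF2.Local
import Pool.Agent.StarF2.Lower

/-!
# Star forests: the exact Ramsey number when one forest is much larger
-/

set_option autoImplicit false

open Finset

namespace Pool.Agent.StarF2

open Pool.Agent.StarF

lemma le_tail (l : ℕ) (hl : 1 ≤ l) (b : ℕ → ℕ) (beta : ℕ) (hb1 : ∀ t < l, 1 ≤ b t)
    (hbeta : b 0 + beta = ∑ t ∈ range l, b t) : l ≤ beta + 1 := by
  obtain ⟨l', rfl⟩ : ∃ l', l = l' + 1 := ⟨l - 1, by omega⟩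
  rw [Finset.sum_range_succ'] at hbeta
  have h1 : ∑ _t ∈ range l', 1 ≤ ∑ t ∈ range l', b (t + 1) := by
    apply Finset.sum_le_sum
    intro t ht
    exact hb1 _ (by rw [mem_range] at ht; omega)
  rw [Finset.sum_const, smul_eq_mul, mul_one, card_range] at h1
  omega

lemma peak_le (k : ℕ) (a : ℕ → ℕ) (ha1 : ∀ t < k, 1 ≤ a t) (t : ℕ) (ht : t < k) :
    a t + t ≤ ∑ s ∈ range k, a s := by
  have h1 : ∑ s ∈ range (t + 1), a s ≤ ∑ s ∈ range k, a s :=
    Finset.sum_le_sum_of_subset (by
      intro s hs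
      rw [mem_range] at hs ⊢
      omega)
  rw [Finset.sum_range_succ] at h1
  have h2 : ∑ _s ∈ range t, 1 ≤ ∑ s ∈ range t, a s := by
    apply Finset.sum_le_sum
    intro s hs
    exact ha1 _ (by rw [mem_range] at hs; omega)
  rw [Finset.sum_const, smul_eq_mul, mul_one, card_range] at h2
  omega

/-- The upper bound when there is no dominating star. -/
lemma upA (k l : ℕ) (hk : 1 ≤ k) (hl : 1 ≤ l) (a b : ℕ → ℕ)
    (ha : ∀ s t, s ≤ t → t < k → a t ≤ a s) (hb : ∀ s t, s ≤ t → t < l → b t ≤ b s)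
    (hb1 : ∀ t < l, 1 ≤ b t) (D beta : ℕ) (hD : D = k + ∑ s ∈ range k, a s)
    (hbeta : b 0 + beta = ∑ t ∈ range l, b t)
    (hbig : 2 * D ≤ l ∨ (2 * D ^ 3 ≤ l + ∑ t ∈ range l, b t ∧ D ≤ beta + 1)) (N : ℕ)
    (hN : l + ∑ t ∈ range l, b t + k ≤ N + 1) (G : SimpleGraph (Fin N)) :
    (starForest (fun i : Fin k => a i)).IsContained G ∨
      (starForest (fun i : Fin l => b i)).IsContained Gᶜ := by
  classical
  by_contra hcon
  rw [not_or] at hcon
  have : Nonempty (Fin N) := ⟨⟨0, by have := hb1 0 (by omega); omega⟩⟩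
  obtain ⟨X, p, hp, hX, hXd, -⟩ := no_red G k a D hD hcon.1 ha
  rw [Fintype.card_fin] at hX
  apply hcon.2
  have hXc : ∑ t ∈ range l, b t + l ≤ X.card := by omega
  have hne : X.Nonempty := by
    rw [← card_pos]
    omega
  obtain ⟨x0, hx0⟩ := hne
  apply blue_many G l b X x0 D (by omega) hb1 (by
    intro v hv
    have := hXd v hv
    convert this) hXc
  rcases hbig with h | ⟨h1, h2⟩
  · exact Or.inl h
  · by_cases h3 : 2 * D ≤ l
    · exact Or.inl h3
    · right
      constructor
      · have h4 : l * D ^ 2 ≤ 2 * D * D ^ 2 := Nat.mul_le_mul_right _ (by omega)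
        have h5 : 2 * D * D ^ 2 = 2 * D ^ 3 := by ring
        omega
      · intro t ht
        have := hb 0 t (Nat.zero_le _) ht
        omega

/-- The data of the dominated case. -/
lemma dom_data (k l : ℕ) (hk : 1 ≤ k) (hl : 1 ≤ l) (a b : ℕ → ℕ) (ha1 : ∀ t < k, 1 ≤ a t)
    (hb1 : ∀ t < l, 1 ≤ b t) (D beta : ℕ) (hD : D = k + ∑ s ∈ range k, a s)
    (hbeta : b 0 + beta = ∑ t ∈ range l, b t)
    (hbig : 2 * D ^ 3 ≤ l + ∑ t ∈ range l, b t) (hbD : beta + 2 ≤ D) :
    2 ≤ D ∧ k ≤ D ∧ l + 1 ≤ D ∧ k * D ^ 2 ≤ l + ∑ t ∈ range l, b t ∧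
      l * D ^ 2 ≤ l + ∑ t ∈ range l, b t ∧ D + beta + l ≤ l + ∑ t ∈ range l, b t ∧
      D ^ 2 ≤ b 0 ∧ 3 ≤ b 0 := by
  have h1 := le_tail l hl b beta hb1 hbeta
  have h2 : 1 ≤ ∑ s ∈ range k, a s := by
    have h3 := ha1 0 (by omega)
    have h4 : a 0 ≤ ∑ s ∈ range k, a s :=
      Finset.single_le_sum (f := a) (fun _ _ => Nat.zero_le _) (mem_range.2 (by omega))
    omega
  have hD2 : 2 ≤ D := by omega
  have e3 : D ^ 3 = D * D ^ 2 := by ring
  have h5 : k * D ^ 2 ≤ D * D ^ 2 := Nat.mul_le_mul_right _ (by omega)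
  have h6 : l * D ^ 2 ≤ D * D ^ 2 := Nat.mul_le_mul_right _ (by omega)
  have h7 : 4 ≤ D ^ 2 := by nlinarith
  have h8 : 2 * D ^ 2 ≤ D ^ 3 := by
    rw [e3]
    exact Nat.mul_le_mul_right _ hD2
  have h9 : 2 * D ≤ D ^ 2 := by nlinarith
  refine ⟨hD2, by omega, by omega, by omega, by omega, by omega, by omega, by omega⟩

/-- The upper bound in the dominated case. -/
lemma upB (k l : ℕ) (hk : 1 ≤ k) (hl : 1 ≤ l) (a b : ℕ → ℕ)
    (ha : ∀ s t, s ≤ t → t < k → a t ≤ a s) (ha1 : ∀ t < k, 1 ≤ a t)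
    (hb1 : ∀ t < l, 1 ≤ b t) (D beta m : ℕ) (hD : D = k + ∑ s ∈ range k, a s)
    (hbeta : b 0 + beta = ∑ t ∈ range l, b t) (hm : ∀ t < k, a t + t ≤ m)
    (hbig : 2 * D ^ 3 ≤ l + ∑ t ∈ range l, b t) (hbD : beta + 2 ≤ D) (N : ℕ)
    (hN : l + ∑ t ∈ range l, b t + k ≤ N + 1) (hN2 : b 0 + l + m ≤ N + 1)
    (G : SimpleGraph (Fin N)) :
    (starForest (fun i : Fin k => a i)).IsContained G ∨
      (starForest (fun i : Fin l => b i)).IsContained Gᶜ := by
  classical
  obtain ⟨d1, d2, d3, d4, d5, d6, d7, d8⟩ := dom_data k l hk hl a b ha1 hb1 D beta hD hbeta hbig hbD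
  by_contra hcon
  rw [not_or] at hcon
  have : Nonempty (Fin N) := ⟨⟨0, by omega⟩⟩
  obtain ⟨X, p, hp, hX, hXd, hred⟩ := no_red G k a D hD hcon.1 ha
  rw [Fintype.card_fin] at hX
  have hXc : l + ∑ t ∈ range l, b t ≤ X.card := by omega
  have hne : X.Nonempty := by
    rw [← card_pos]
    omega
  obtain ⟨x0, hx0⟩ := hne
  obtain ⟨v, hv, hdeg⟩ : ∃ v ∈ X, (X.filter (G.Adj v)).card < a p := by
    by_contra hc
    push Not at hc
    apply hred (by omega) x0 hx0
    · have := hc x0 hx0
      convert this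
    · intro u hu hpk
      have h1 := hc u hu
      have h2 := ha p (p + 1) (by omega) hpk
      refine h2.trans ?_
      convert h1
  apply hcon.2
  have hmp := hm p hp
  apply blue_dom G l hl b X D beta hbeta (by
    intro v hv
    have := hXd v hv
    convert this) v hv (by omega)
  · have h3 : b 0 + l + (X.filter (G.Adj v)).card ≤ X.card := by omega
    convert h3
  · omega
  · omega

/-- The equality case. -/
lemma upC (k l : ℕ) (hk : 1 ≤ k) (hl : 1 ≤ l) (a b : ℕ → ℕ)
    (ha : ∀ s t, s ≤ t → t < k → a t ≤ a s) (ha1 : ∀ t < k, 1 ≤ a t)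
    (hb1 : ∀ t < l, 1 ≤ b t) (D beta m : ℕ) (hD : D = k + ∑ s ∈ range k, a s)
    (hbeta : b 0 + beta = ∑ t ∈ range l, b t) (hm : ∀ t < k, a t + t ≤ m)
    (hbig : 2 * D ^ 3 ≤ l + ∑ t ∈ range l, b t) (hbD : beta + 2 ≤ D) (hmb : beta + k < m) (N : ℕ)
    (hN : N + 2 = b 0 + l + m) (G : SimpleGraph (Fin N))
    (h1 : ¬ (starForest (fun i : Fin k => a i)).IsContained G)
    (h2 : ¬ (starForest (fun i : Fin l => b i)).IsContained Gᶜ) :
    ∃ t < k, a t + t = m ∧ Fit (a t) (b 0) l (b (l - 1)) := by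
  classical
  obtain ⟨d1, d2, d3, d4, d5, d6, d7, d8⟩ := dom_data k l hk hl a b ha1 hb1 D beta hD hbeta hbig hbD
  have : Nonempty (Fin N) := ⟨⟨0, by omega⟩⟩
  obtain ⟨X, p, hp, hX, hXd', hred'⟩ := no_red G k a D hD h1 ha
  have hXd : ∀ v ∈ X, (X.filter (G.Adj v)).card < D := by
    intro v hv
    have := hXd' v hv
    convert this
  have hred : k * D ^ 2 ≤ X.card → ∀ u0 ∈ X, a p ≤ (X.filter (G.Adj u0)).card →
        (∀ u ∈ X, p + 1 < k → a (p + 1) ≤ (X.filter (G.Adj u)).card) → False := by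
    intro e1 u0 hu0 e2 e3
    apply hred' e1 u0 hu0
    · convert e2
    · intro u hu hpk
      have := e3 u hu hpk
      convert this
  rw [Fintype.card_fin] at hX
  have hXc : l + ∑ t ∈ range l, b t ≤ X.card := by omega
  have hne : X.Nonempty := by
    rw [← card_pos]
    omega
  obtain ⟨x0, hx0⟩ := hne
  -- lower bound of the degrees
  have hlow : ∀ v ∈ X, X.card + 1 ≤ b 0 + l + (X.filter (G.Adj v)).card := by
    intro v hv
    by_contra hc
    apply h2
    apply blue_dom G l hl b X D beta hbeta (by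
      intro v hv
      have := hXd v hv
      convert this) v hv (by omega)
    · have h3 : b 0 + l + (X.filter (G.Adj v)).card ≤ X.card := by omega
      convert h3
    · omega
    · omega
  obtain ⟨v, hv, hdeg⟩ : ∃ v ∈ X, (X.filter (G.Adj v)).card < a p := by
    by_contra hc
    push Not at hc
    apply hred (by omega) x0 hx0 (hc x0 hx0)
    intro u hu hpk
    exact (ha p (p + 1) (by omega) hpk).trans (hc u hu)
  have hmp := hm p hp
  have hlv := hlow v hv
  have htight : a p + p = m := by omega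
  -- the graph is regular
  obtain ⟨r, hr⟩ : ∃ r, r + 1 = a p := ⟨a p - 1, by have := ha1 p hp; omega⟩
  have hreg : ∀ u ∈ X, (X.filter (G.Adj u)).card = r := by
    intro u hu
    have h3 := hlow u hu
    apply le_antisymm
    · by_contra hc
      push Not at hc
      apply hred (by omega) u hu (by omega)
      intro w hw hpk
      have h4 := hlow w hw
      have h5 := hm (p + 1) hpk
      omega
    · omega
  have hXr : b 0 + l + r = X.card + 1 := by omega
  have hloc : 2 ≤ l → ∀ v ∈ X, ∀ u ∈ X, G.Adj v u →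
      (X.filter (fun w => G.Adj v w ∧ w ≠ u ∧ ¬ G.Adj u w)).card < b (l - 1) := by
    intro hl2 v hv u hu hvu
    by_contra hc
    push Not at hc
    apply h2
    apply blue_local G l hl2 b X D beta r hbeta (by
      intro v hv
      have := hXd v hv
      convert this) v u hv hu hvu _ _ (by omega) hXr (by omega) (by omega)
    · have := hreg v hv
      convert this
    · refine hc.trans (le_of_eq ?_)
      congr
  have hl1 : l = 1 → 3 ≤ b (l - 1) := by
    rintro rfl
    exact d8
  have hclq : (∀ v ∈ X, ∀ u ∈ X, ∀ w ∈ X, G.Adj v u → G.Adj v w → u ≠ w → G.Adj u w) →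
      b 0 + l ≡ 2 [MOD a p] := by
    intro hcl
    have h3 := clique_dvd G X r (by
      intro v hv
      have := hreg v hv
      convert this) hcl
    rw [hr] at h3
    have h4 : X.card = (b 0 + l - 2) + a p := by omega
    rw [h4, Nat.dvd_add_self_right] at h3
    exact ((Nat.modEq_iff_dvd' (by omega)).2 h3).symm
  refine ⟨p, hp, htight, ?_, ?_, ?_⟩
  · intro hs
    have hl2 : 2 ≤ l := by
      by_contra hc
      have := hl1 (by omega)
      omega
    apply hclq
    intro v hv u hu w hw hvu hvw huw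
    by_contra hn
    have h3 := hloc hl2 v hv u hu hvu
    rw [hs, Nat.lt_one_iff, card_eq_zero, Finset.filter_eq_empty_iff] at h3
    exact h3 hw ⟨hvw, huw.symm, hn⟩
  · intro hs
    rcases Nat.even_or_odd (a p) with he | ho
    · right
      have hl2 : 2 ≤ l := by
        by_contra hc
        have := hl1 (by omega)
        omega
      apply hclq
      apply twin G X r
      · rw [← hr, Nat.even_add_one, Nat.not_even_iff_odd] at he
        exact he
      · intro v hv
        have := hreg v hv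
        convert this
      · intro v hv u hu hvu
        have h3 := hloc hl2 v hv u hu hvu
        rw [hs] at h3
        have h4 : (X.filter (fun w => G.Adj v w ∧ w ≠ u ∧ ¬ G.Adj u w)).card ≤ 1 := by omega
        convert h4
    · exact Or.inl ho
  · intro _
    rcases Nat.even_or_odd (a p) with he | ho
    · right
      have h3 := reg_even G X r (by
        intro v hv
        have := hreg v hv
        convert this)
      rw [← hr, Nat.even_add_one, Nat.not_even_iff_odd] at he
      rw [Nat.even_mul] at h3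
      rcases h3 with h3 | h3
      · have h4 : Even (X.card + 1 + 1 + r + 1) := by
          obtain ⟨x, hx⟩ := h3
          obtain ⟨y, hy⟩ := he
          exact ⟨x + y + 2, by omega⟩
        obtain ⟨x, hx⟩ := h3
        obtain ⟨y, hy⟩ := he
        exact ⟨x - y, by omega⟩
      · exact absurd h3 (Nat.not_even_iff_odd.2 he)
    · exact Or.inl ho

/-- Sums of two consecutive numbers. -/
lemma rep (A n : ℕ) (hA : 1 ≤ A) (hn : A * A ≤ n) : ∃ q q', q * (A + 1) + q' * A = n := by
  have h1 : A ≤ n / A := by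
    rw [Nat.le_div_iff_mul_le (by omega)]
    exact hn
  have h2 := Nat.mod_lt n (show 0 < A by omega)
  have h3 := Nat.div_add_mod n A
  obtain ⟨c, hc⟩ : ∃ c, n / A = n % A + c := ⟨n / A - n % A, by omega⟩
  refine ⟨n % A, c, ?_⟩
  rw [hc] at h3
  conv_rhs => rw [← h3]
  ring

/-- The second lower bound. -/
lemma low1 (k l : ℕ) (hk : 1 ≤ k) (hl : 1 ≤ l) (a b : ℕ → ℕ)
    (ha : ∀ s t, s ≤ t → t < k → a t ≤ a s) (ha1 : ∀ t < k, 1 ≤ a t) (hb1 : ∀ t < l, 1 ≤ b t)
    (hne : ∃ N : ℕ, ∀ G : SimpleGraph (Fin N),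
      (starForest (fun i : Fin k => a i)).IsContained G ∨
        (starForest (fun i : Fin l => b i)).IsContained Gᶜ) :
    l + ∑ t ∈ range l, b t + k ≤
      ramsey (starForest (fun i : Fin k => a i)) (starForest (fun i : Fin l => b i)) + 1 := by
  classical
  have h1 := ramsey_gt (starForest (fun i : Fin k => a i)) (starForest (fun i : Fin l => b i))
    (full (k - 1) (⊥ : SimpleGraph (Fin (l + ∑ t ∈ range l, b t - 1))))
    (full_no_red _ k (k - 1) (by omega) a ha (by
      intro x
      have h2 := ha1 (k - 1) (by omega)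
      refine lt_of_le_of_lt (le_of_eq ?_) (Nat.lt_of_lt_of_le Nat.zero_lt_one h2)
      simp))
    (full_no_blue_small _ l (k - 1) b hb1 (by
      rw [Fintype.card_fin]
      omega)) hne
  rw [Fintype.card_sum, Fintype.card_fin, Fintype.card_fin] at h1
  omega

/-- A lower bound from a graph with the right local structure. -/
lemma low_of (k l p n : ℕ) (hl : 1 ≤ l) (hp : p < k) (a b : ℕ → ℕ)
    (ha : ∀ s t, s ≤ t → t < k → a t ≤ a s) (hb : ∀ s t, s ≤ t → t < l → b t ≤ b s)
    (hb1 : ∀ t < l, 1 ≤ b t) (hne : ∃ N : ℕ, ∀ G : SimpleGraph (Fin N),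
      (starForest (fun i : Fin k => a i)).IsContained G ∨
        (starForest (fun i : Fin l => b i)).IsContained Gᶜ)
    {W : Type} [Fintype W] (H : SimpleGraph W) (hW : Fintype.card W = n) (lo hi s : ℕ)
    (hloc : Loc H lo hi s) (hhi : hi < a p) (hlo : n + 1 ≤ b 0 + l + lo) (hs : s < b (l - 1)) :
    p + n < ramsey (starForest (fun i : Fin k => a i)) (starForest (fun i : Fin l => b i)) := by
  classical
  have h1 := ramsey_gt (starForest (fun i : Fin k => a i)) (starForest (fun i : Fin l => b i))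
    (full p H)
    (full_no_red H k p hp a ha (by
      intro x
      have h2 := (hloc x).2.1
      have h3 : (univ.filter (H.Adj x)).card ≤ hi := by convert h2
      omega))
    (full_no_blue H l p hl b hb hb1 (by
      intro x
      have h2 := (hloc x).1
      have h3 : lo ≤ (univ.filter (H.Adj x)).card := by convert h2
      omega) (by
      intro x y hxy
      have h2 := (hloc x).2.2 y hxy
      have h3 : (univ.filter (fun z => H.Adj x z ∧ z ≠ y ∧ ¬ H.Adj y z)).card ≤ s := by
        convert h2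
      omega)) hne
  rw [Fintype.card_sum, Fintype.card_fin, hW] at h1
  exact h1

/-- The lower bound from disjoint complete graphs of two sizes. -/
lemma low2 (k l : ℕ) (hl : 1 ≤ l) (a b : ℕ → ℕ)
    (ha : ∀ s t, s ≤ t → t < k → a t ≤ a s) (hb : ∀ s t, s ≤ t → t < l → b t ≤ b s)
    (hb1 : ∀ t < l, 1 ≤ b t) (m p : ℕ) (hp : p < k) (hm : a p + p = m) (ha2 : 2 ≤ a p)
    (hbig : a p * a p ≤ b 0) (hne : ∃ N : ℕ, ∀ G : SimpleGraph (Fin N),
      (starForest (fun i : Fin k => a i)).IsContained G ∨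
        (starForest (fun i : Fin l => b i)).IsContained Gᶜ) :
    b 0 + m + l ≤
      ramsey (starForest (fun i : Fin k => a i)) (starForest (fun i : Fin l => b i)) + 2 := by
  obtain ⟨A, hA⟩ : ∃ A, a p = A + 1 := ⟨a p - 1, by omega⟩
  have hsq : A * A ≤ b 0 := le_trans (Nat.mul_le_mul (by omega) (by omega)) hbig
  obtain ⟨q, q', hq⟩ := rep A (b 0 + a p + l - 3) (by omega) (by omega)
  have h1 := low_of k l p (b 0 + a p + l - 3) hl hp a b ha hb hb1 hne
    (blocks q q' (⊤ : SimpleGraph (Fin (A + 1))) (⊤ : SimpleGraph (Fin A))) (by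
      rw [Fintype.card_sum, Fintype.card_prod, Fintype.card_prod, Fintype.card_fin,
        Fintype.card_fin, Fintype.card_fin, Fintype.card_fin]
      exact hq) (A - 1) A 0
    (loc_blocks q q' _ _ _ _ _ (loc_top (A + 1) (A - 1) A 0 (by omega) (by omega) (by omega))
      (loc_top A (A - 1) A 0 (by omega) (by omega) (by omega))) (by omega) (by omega) (by
      have := hb1 (l - 1) (by omega)
      omega)
  omega

/-- The lower bound in the equality case. -/
lemma low3 (k l : ℕ) (hl : 1 ≤ l) (a b : ℕ → ℕ)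
    (ha : ∀ s t, s ≤ t → t < k → a t ≤ a s) (hb : ∀ s t, s ≤ t → t < l → b t ≤ b s)
    (hb1 : ∀ t < l, 1 ≤ b t) (m p : ℕ) (hp : p < k) (hm : a p + p = m) (ha2 : 2 ≤ a p)
    (hbig : a p * a p ≤ b 0) (hfit : Fit (a p) (b 0) l (b (l - 1)))
    (hne : ∃ N : ℕ, ∀ G : SimpleGraph (Fin N),
      (starForest (fun i : Fin k => a i)).IsContained G ∨
        (starForest (fun i : Fin l => b i)).IsContained Gᶜ) :
    b 0 + m + l ≤
      ramsey (starForest (fun i : Fin k => a i)) (starForest (fun i : Fin l => b i)) + 1 := by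
  have hbl := hb1 (l - 1) (by omega)
  have hb4 : 4 ≤ b 0 := le_trans (by nlinarith) hbig
  -- disjoint complete graphs
  have hmod : b 0 + l ≡ 2 [MOD a p] → b 0 + m + l ≤
      ramsey (starForest (fun i : Fin k => a i)) (starForest (fun i : Fin l => b i)) + 1 := by
    intro h
    have h1 : a p ∣ b 0 + l - 2 := (Nat.modEq_iff_dvd' (by omega)).1 h.symm
    obtain ⟨q, hq⟩ := h1
    have h2 := low_of k l p (b 0 + a p + l - 2) hl hp a b ha hb hb1 hne
      (blocks (q + 1) 0 (⊤ : SimpleGraph (Fin (a p))) (⊤ : SimpleGraph (Fin (a p)))) (by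
        rw [Fintype.card_sum, Fintype.card_prod, Fintype.card_prod, Fintype.card_fin,
          Fintype.card_fin, Fintype.card_fin, zero_mul, add_zero, Nat.succ_mul, mul_comm]
        omega) (a p - 1) (a p - 1) 0
      (loc_blocks _ _ _ _ _ _ _ (loc_top _ _ _ 0 (by omega) (by omega) (by omega))
        (loc_top _ _ _ 0 (by omega) (by omega) (by omega))) (by omega) (by omega) (by omega)
    omega
  -- an odd star
  have hodd : 2 ≤ b (l - 1) → Odd (a p) → b 0 + m + l ≤
      ramsey (starForest (fun i : Fin k => a i)) (starForest (fun i : Fin l => b i)) + 1 := by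
    intro hs ho
    obtain ⟨y, hy⟩ := ho
    obtain ⟨q, q', hq⟩ := rep (a p) (b 0 + a p + l - 2) (by omega) (by omega)
    have h2 := low_of k l p (b 0 + a p + l - 2) hl hp a b ha hb hb1 hne
      (blocks q q' (cocktail (y + 1)) (⊤ : SimpleGraph (Fin (a p)))) (by
        rw [Fintype.card_sum, Fintype.card_prod, Fintype.card_prod, Fintype.card_fin,
          Fintype.card_fin, Fintype.card_fin, ← hq, Fintype.card_prod, Fintype.card_fin,
          Fintype.card_fin, hy]
        ring) (a p - 1) (a p - 1) 1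
      (loc_blocks _ _ _ _ _ _ _ (loc_cocktail (y + 1) _ _ 1 (by omega) (by omega) (by omega)
        le_rfl) (loc_top _ _ _ 1 (by omega) (by omega) (by omega))) (by omega) (by omega)
      (by omega)
    omega
  -- an even star
  have heven : 3 ≤ b (l - 1) → Even (a p) → Even (b 0 + l) → b 0 + m + l ≤
      ramsey (starForest (fun i : Fin k => a i)) (starForest (fun i : Fin l => b i)) + 1 := by
    intro hs he he2
    obtain ⟨y, hy⟩ := he
    obtain ⟨z, hz⟩ := he2
    have hyy : y * y ≤ a p * a p := Nat.mul_le_mul (by omega) (by omega)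
    obtain ⟨q, q', hq⟩ := rep y (z + y - 1) (by omega) (by
      have h3 : 4 * (y * y) ≤ b 0 := by
        have : a p * a p = 4 * (y * y) := by rw [hy]; ring
        omega
      omega)
    obtain ⟨w, hw⟩ : ∃ w, a p = w + 1 := ⟨a p - 1, by omega⟩
    have h2 := low_of k l p (b 0 + a p + l - 2) hl hp a b ha hb hb1 hne
      (blocks q q' (SimpleGraph.cycleGraph (w + 3))ᶜ (⊤ : SimpleGraph (Fin (a p)))) (by
        rw [Fintype.card_sum, Fintype.card_prod, Fintype.card_prod, Fintype.card_fin,
          Fintype.card_fin, Fintype.card_fin, Fintype.card_fin]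
        have e1 : w + 3 = 2 * (y + 1) := by omega
        have e2 : a p = 2 * y := by omega
        have e3 : q * (2 * (y + 1)) + q' * (2 * y) = 2 * (q * (y + 1) + q' * y) := by ring
        rw [e1, e2, e3, hq]
        omega) (a p - 1) (a p - 1) 2
      (loc_blocks _ _ _ _ _ _ _ (loc_cycle w _ _ 2 (by omega) (by omega) le_rfl)
        (loc_top _ _ _ 2 (by omega) (by omega) (by omega))) (by omega) (by omega) (by omega)
    omega
  obtain ⟨f1, f2, f3⟩ := hfit
  rcases (by omega : b (l - 1) = 1 ∨ b (l - 1) = 2 ∨ 3 ≤ b (l - 1)) with hs | hs | hs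
  · exact hmod (f1 hs)
  · rcases f2 hs with h | h
    · exact hodd (by omega) h
    · exact hmod h
  · rcases Nat.even_or_odd (a p) with he | ho
    · rcases f3 hs with h | h
      · exact absurd he (Nat.not_even_iff_odd.2 h)
      · exact heven hs he h
    · exact hodd (by omega) ho

/-- **The exact Ramsey number when one forest is much larger.** -/
theorem large_main (k l : ℕ) (hk : 1 ≤ k) (hl : 1 ≤ l) (a b : ℕ → ℕ)
    (ha : ∀ s t, s ≤ t → t < k → a t ≤ a s) (hb : ∀ s t, s ≤ t → t < l → b t ≤ b s)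
    (ha1 : ∀ t < k, 1 ≤ a t) (hb1 : ∀ t < l, 1 ≤ b t) (D beta m : ℕ)
    (hD : D = k + ∑ s ∈ range k, a s) (hbeta : b 0 + beta = ∑ t ∈ range l, b t)
    (hm : ∀ t < k, a t + t ≤ m) (hm2 : ∃ t < k, a t + t = m)
    (hbig : 2 * D ≤ l ∨ 2 * D ^ 3 ≤ l + ∑ t ∈ range l, b t) :
    (m ≤ beta + k →
      ramsey (starForest (fun i : Fin k => a i)) (starForest (fun i : Fin l => b i)) + 1 =
        l + ∑ t ∈ range l, b t + k) ∧
    (beta + k < m →
      ((∃ t < k, a t + t = m ∧ Fit (a t) (b 0) l (b (l - 1))) →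
        ramsey (starForest (fun i : Fin k => a i)) (starForest (fun i : Fin l => b i)) + 1 =
          b 0 + m + l) ∧
      ((¬ ∃ t < k, a t + t = m ∧ Fit (a t) (b 0) l (b (l - 1))) →
        ramsey (starForest (fun i : Fin k => a i)) (starForest (fun i : Fin l => b i)) + 2 =
          b 0 + m + l)) := by
  have htail := le_tail l hl b beta hb1 hbeta
  have hmD : m + k ≤ D := by
    obtain ⟨t, ht, rfl⟩ := hm2
    have := peak_le k a ha1 t ht
    omega
  by_cases hcase : 2 * D ≤ l ∨ D ≤ beta + 1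
  · -- no dominating star
    have hb' : 2 * D ≤ l ∨ (2 * D ^ 3 ≤ l + ∑ t ∈ range l, b t ∧ D ≤ beta + 1) := by
      rcases hbig with h | h
      · exact Or.inl h
      · rcases hcase with h' | h'
        · exact Or.inl h'
        · exact Or.inr ⟨h, h'⟩
    have hup := upA k l hk hl a b ha hb hb1 D beta hD hbeta hb'
      (l + ∑ t ∈ range l, b t + k - 1) (by omega)
    refine ⟨fun _ => ?_, fun h => ?_⟩
    · have h1 := ramsey_le _ _ _ hup
      have h2 := low1 k l hk hl a b ha ha1 hb1 ⟨_, hup⟩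
      omega
    · exfalso
      rcases hcase with h' | h'
      · omega
      · omega
  · push Not at hcase
    obtain ⟨hc1, hc2⟩ := hcase
    have hbig' : 2 * D ^ 3 ≤ l + ∑ t ∈ range l, b t := by
      rcases hbig with h | h
      · omega
      · exact h
    have hup := upB k l hk hl a b ha ha1 hb1 D beta m hD hbeta hm hbig' (by omega)
    obtain ⟨d1, d2, d3, d4, d5, d6, d7, d8⟩ :=
      dom_data k l hk hl a b ha1 hb1 D beta hD hbeta hbig' (by omega)
    refine ⟨fun h => ?_, fun h => ⟨?_, ?_⟩⟩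
    · have hup' := hup (l + ∑ t ∈ range l, b t + k - 1) (by omega) (by omega)
      have h1 := ramsey_le _ _ _ hup'
      have h2 := low1 k l hk hl a b ha ha1 hb1 ⟨_, hup'⟩
      omega
    · rintro ⟨t, ht, htm, hfit⟩
      have hup' := hup (b 0 + l + m - 1) (by omega) (by omega)
      have h1 := ramsey_le _ _ _ hup'
      have hat : a t ≤ D := by omega
      have h2 := low3 k l hl a b ha hb hb1 m t ht htm (by omega) (by
        have : a t * a t ≤ D * D := Nat.mul_le_mul hat hat
        have e : D ^ 2 = D * D := sq D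
        omega) hfit ⟨_, hup'⟩
      omega
    · intro hnot
      have hup' := hup (b 0 + l + m - 1) (by omega) (by omega)
      obtain ⟨t, ht, htm⟩ := hm2
      have hat : a t ≤ D := by omega
      have h2 := low2 k l hl a b ha hb hb1 m t ht htm (by omega) (by
        have : a t * a t ≤ D * D := Nat.mul_le_mul hat hat
        have e : D ^ 2 = D * D := sq D
        omega) ⟨_, hup'⟩
      have h3 : ∀ G : SimpleGraph (Fin (b 0 + l + m - 2)),
          (starForest (fun i : Fin k => a i)).IsContained G ∨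
            (starForest (fun i : Fin l => b i)).IsContained Gᶜ := by
        intro G
        by_contra hcon
        rw [not_or] at hcon
        exact hnot (upC k l hk hl a b ha ha1 hb1 D beta m hD hbeta hm hbig' (by omega) h
          (b 0 + l + m - 2) (by omega) G hcon.1 hcon.2)
      have h1 := ramsey_le _ _ _ h3
      omega

end Pool.Agent.StarF2
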